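import Mathlib

/-!
# The forty-four listed values
-/

set_option autoImplicit false

namespace Pool.Agent.MOD

open Finset

/-- Trial division: an upper bound for the number of prime factors of `n` other than `k`
(if the flag is on), when every prime factor of `n` is at least `k`. -/
def tdv : ℕ → ℕ → ℕ → Bool → ℕ
  | 0, _, _, _ => 100000
  | f + 1, k, n, b =>
    if n = 1 then 0
    else if n % k = 0 then (if b then 0 else 1) + tdv f k (n / k) true
    else if n < k * k then 1
    else tdv f (k + 1) n false

/-- The same for all odd `x` at most `m`. -/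
def chk (d : ℕ) : ℕ → Bool
  | 0 => true
  | m + 1 => (decide (tdv 400 2 (d + (2 * m + 1) ^ 2) false ≤ 2)) && chk d m

theorem tdv_spec : ∀ (f k n : ℕ) (b : Bool), 2 ≤ k → n ≠ 0 → n < 100000 →
    (∀ q : ℕ, q.Prime → q ∣ n → k ≤ q) →
    (if b then n.primeFactors \ {k} else n.primeFactors).card ≤ tdv f k n b := by
  intro f
  induction f with
  | zero =>
    intro k n b _ hn0 hn _
    have h1 : (if b then n.primeFactors \ {k} else n.primeFactors).card ≤ n.primeFactors.card := by
      split_ifs
      · exact card_le_card sdiff_subset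
      · exact le_rfl
    have h2 : n.primeFactors ⊆ range (n + 1) := by
      intro z hz
      rw [mem_range, Nat.lt_succ_iff]
      exact Nat.le_of_dvd (Nat.pos_of_ne_zero hn0) (Nat.dvd_of_mem_primeFactors hz)
    have h3 := card_le_card h2
    rw [card_range] at h3
    unfold tdv
    omega
  | succ f ih =>
    intro k n b hk hn0 hn h
    unfold tdv
    by_cases h1 : n = 1
    · rw [if_pos h1, h1]
      cases b <;> simp
    rw [if_neg h1]
    by_cases h2 : n % k = 0
    · rw [if_pos h2]
      have hkn : k ∣ n := Nat.dvd_of_mod_eq_zero h2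
      have hkk : k * (n / k) = n := Nat.mul_div_cancel' hkn
      have hm0 : n / k ≠ 0 := by
        intro h0
        rw [h0, mul_zero] at hkk
        exact hn0 hkk.symm
      have h3 := ih k (n / k) true hk hm0 (lt_of_le_of_lt (Nat.div_le_self n k) hn)
        (fun q hq hqn => h q hq (hqn.trans ⟨k, by rw [mul_comm]; exact hkk.symm⟩))
      rw [if_pos rfl] at h3
      have hsub : n.primeFactors ⊆ insert k ((n / k).primeFactors \ {k}) := by
        intro q hq
        rw [mem_insert, mem_sdiff, mem_singleton]
        by_cases hqk : q = k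
        · exact Or.inl hqk
        · refine Or.inr ⟨?_, hqk⟩
          rw [Nat.mem_primeFactors] at hq ⊢
          obtain ⟨hq1, hq2, _⟩ := hq
          refine ⟨hq1, ?_, hm0⟩
          rw [← hkk] at hq2
          rcases (hq1.dvd_mul).1 hq2 with h4 | h4
          · have h5 : q ≤ k := Nat.le_of_dvd (by omega) h4
            have h6 := h q hq1 (h4.trans hkn)
            exact absurd (le_antisymm h5 h6) hqk
          · exact h4
      cases b
      · rw [if_neg (by decide), if_neg (by decide)]
        have h4 := card_le_card hsub
        have h5 := card_insert_le k ((n / k).primeFactors \ {k})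
        omega
      · rw [if_pos rfl, if_pos rfl, zero_add]
        refine le_trans (card_le_card ?_) h3
        intro q hq
        rw [mem_sdiff, mem_singleton] at hq
        have h4 := hsub hq.1
        rw [mem_insert] at h4
        rcases h4 with h4 | h4
        · exact absurd h4 hq.2
        · exact h4
    rw [if_neg h2]
    by_cases h3 : n < k * k
    · rw [if_pos h3]
      have h4 : (if b then n.primeFactors \ {k} else n.primeFactors).card ≤
          n.primeFactors.card := by
        split_ifs
        · exact card_le_card sdiff_subset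
        · exact le_rfl
      refine h4.trans ?_
      rw [card_le_one]
      intro q hq r hr
      rw [Nat.mem_primeFactors] at hq hr
      by_contra hne
      have h5 : q * r ∣ n :=
        Nat.Coprime.mul_dvd_of_dvd_of_dvd ((Nat.coprime_primes hq.1 hr.1).2 hne) hq.2.1 hr.2.1
      have h6 := Nat.le_of_dvd (Nat.pos_of_ne_zero hn0) h5
      have h7 := Nat.mul_le_mul (h q hq.1 hq.2.1) (h r hr.1 hr.2.1)
      omega
    rw [if_neg h3]
    have h4 := ih (k + 1) n false (by omega) hn0 hn (by
      intro q hq hqn
      rcases (h q hq hqn).lt_or_eq with h5 | h5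
      · exact h5
      · exact absurd (Nat.mod_eq_zero_of_dvd (h5 ▸ hqn)) h2)
    rw [if_neg (by decide)] at h4
    refine le_trans ?_ h4
    split_ifs
    · exact card_le_card sdiff_subset
    · exact le_rfl

theorem chk_spec (d : ℕ) (m : ℕ) (hd : 1 ≤ d) (hb : d + (2 * m + 1) ^ 2 < 100000)
    (h : chk d m = true) (j : ℕ) (hj : j < m) :
    (d + (2 * j + 1) ^ 2).primeFactors.card ≤ 2 := by
  induction m with
  | zero => omega
  | succ m ih =>
    unfold chk at h
    rw [Bool.and_eq_true, decide_eq_true_eq] at h
    have hmm : (2 * m + 1) ^ 2 ≤ (2 * (m + 1) + 1) ^ 2 := Nat.pow_le_pow_left (by omega) 2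
    rcases Nat.lt_succ_iff_lt_or_eq.1 hj with h1 | h1
    · exact ih (by omega) h.2 h1
    · rw [h1]
      have h2 := tdv_spec 400 2 (d + (2 * m + 1) ^ 2) false le_rfl (by omega) (by omega)
        (fun q hq _ => hq.two_le)
      rw [if_neg (by decide)] at h2
      exact h2.trans h.1

/-- The forty-four listed values. -/
def SL : Finset ℕ :=
  {18, 50, 54, 90, 98, 126, 162, 198, 242, 250, 294, 342, 378, 450, 522, 550, 558, 702, 722,
    850, 882, 918, 1078, 1150, 1422, 1450, 2662, 2842, 3250, 3798, 4018, 4698, 4750, 5350,
    7018, 9802, 11650, 12838, 16762, 17182, 20938, 23998, 30682, 48778}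

theorem chk_all : ∀ d ∈ SL, 1 ≤ d ∧ d + (2 * (d.sqrt / 2 + 1) + 1) ^ 2 < 100000 ∧
    (chk d ((d.sqrt + 1) / 2)) = true := by
  decide +kernel

end Pool.Agent.MOD
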