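import Pool.Agent.MOD.Cnt
import Pool.Agent.GLI.HpMul

/-!
# The character `n ↦ J(-e | n)` modulo `4 e`
-/

set_option autoImplicit false

namespace Pool.Agent.MOD

open Finset NumberTheorySymbols Pool.Agent.GLI

private theorem chr_aux {d : ℕ} (hd : 0 < d) : J(-(d : ℤ) | 4 * d - 1) = -1 := by
  obtain ⟨b, hb⟩ : ∃ b, b = 4 * d - 1 := ⟨_, rfl⟩
  rw [← hb]
  have hb4 : b % 4 = 3 := by omega
  have hodd : Odd b := Nat.odd_iff.2 (by omega)
  have h1 : J(-1 | b) = -1 := by
    rw [jacobiSym.at_neg_one hodd, ZMod.χ₄_nat_three_mod_four hb4]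
  have h2 : J((4 * d : ℤ) | b) = 1 := by
    have : ((4 * d : ℤ)) % (b : ℤ) = 1 % (b : ℤ) := by
      have h3 : (4 * d : ℤ) = (b : ℤ) + 1 := by omega
      rw [h3, Int.add_emod_left]
    rw [jacobiSym.mod_left' this, jacobiSym.one_left]
  have h4 : J((4 : ℤ) | b) = 1 := by
    have : (4 : ℤ) = 2 ^ 2 := by norm_num
    rw [this]
    apply jacobiSym.sq_one'
    have : Nat.Coprime 2 b := by
      rw [Nat.coprime_two_left]; exact hodd
    simpa [Int.gcd] using this
  have h5 : J((d : ℤ) | b) = 1 := by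
    rw [jacobiSym.mul_left, h4, one_mul] at h2
    exact h2
  have : (-(d : ℤ)) = (-1) * d := by ring
  rw [this, jacobiSym.mul_left, h1, h5]; norm_num

private theorem chr_odd {e n : ℕ} (h : n.Coprime (4 * e)) : Odd n := by
  have h1 : n.Coprime 2 := h.coprime_dvd_right ⟨2 * e, by ring⟩
  exact Nat.coprime_two_right.1 h1

private theorem chr_mod {e : ℕ} (n : ℕ) (hn : Odd n) :
    J(-(e : ℤ) | (n % (4 * e))) = J(-(e : ℤ) | n) := by
  rw [jacobiSym.mod_right _ hn]
  simp

open Classical in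
/-- the character `n ↦ J(-e | n)` -/
noncomputable def chi (e : ℕ) (he : 1 ≤ e) : DirichletCharacter ℂ (4 * e) :=
  haveI : NeZero (4 * e) := ⟨by omega⟩
  { toFun := fun a => if IsUnit a then ((J(-(e : ℤ) | a.val) : ℤ) : ℂ) else 0
    map_one' := by
      rw [if_pos isUnit_one, ZMod.val_one'' (by omega)]
      simp
    map_mul' := by
      intro a b
      by_cases hab : IsUnit (a * b)
      · have ha : IsUnit a := isUnit_of_mul_isUnit_left hab
        have hb : IsUnit b := isUnit_of_mul_isUnit_right hab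
        rw [if_pos hab, if_pos ha, if_pos hb, ZMod.val_mul]
        have ha' : Odd a.val := by
          rw [← ZMod.natCast_zmod_val a] at ha
          exact chr_odd ((ZMod.isUnit_iff_coprime _ _).1 ha)
        have hb' : Odd b.val := by
          rw [← ZMod.natCast_zmod_val b] at hb
          exact chr_odd ((ZMod.isUnit_iff_coprime _ _).1 hb)
        have hna : NeZero a.val := ⟨fun h0 => by rw [h0] at ha'; simp at ha'⟩
        have hnb : NeZero b.val := ⟨fun h0 => by rw [h0] at hb'; simp at hb'⟩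
        rw [chr_mod _ (ha'.mul hb'), jacobiSym.mul_right]
        push_cast
        rfl
      · rw [if_neg hab]
        by_cases ha : IsUnit a
        · have hb : ¬ IsUnit b := fun hb => hab (ha.mul hb)
          rw [if_neg hb, mul_zero]
        · rw [if_neg ha, zero_mul]
    map_nonunit' := fun a ha => if_neg ha }

theorem chi_apply (e : ℕ) (he : 1 ≤ e) (n : ℕ) (hn : n.Coprime (4 * e)) :
    chi e he (n : ZMod (4 * e)) = ((J(-(e : ℤ) | n) : ℤ) : ℂ) := by
  classical
  have : NeZero (4 * e) := ⟨by omega⟩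
  have h1 : chi e he (n : ZMod (4 * e)) = if IsUnit (n : ZMod (4 * e)) then
      ((J(-(e : ℤ) | (n : ZMod (4 * e)).val) : ℤ) : ℂ) else 0 := rfl
  rw [h1, if_pos ((ZMod.isUnit_iff_coprime _ _).2 hn), ZMod.val_natCast, chr_mod _ (chr_odd hn)]

theorem chi_real (e : ℕ) (he : 1 ≤ e) : RealChar (chi e he) := by
  classical
  have : NeZero (4 * e) := ⟨by omega⟩
  intro a
  have h1 : chi e he a = if IsUnit a then ((J(-(e : ℤ) | a.val) : ℤ) : ℂ) else 0 := rfl
  rw [h1]
  split_ifs
  · rcases jacobiSym.trichotomy (-(e : ℤ)) a.val with h | h | h <;> rw [h] <;> simp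
  · left
    rfl

theorem chi_ne (e : ℕ) (he : 1 ≤ e) : chi e he ≠ 1 := by
  intro h
  have hc : (4 * e - 1).Coprime (4 * e) := by
    have h2 : (4 * e - 1).Coprime (4 * e - 1 + 1) := by simp
    rwa [show 4 * e - 1 + 1 = 4 * e by omega] at h2
  have h1 := chi_apply e he (4 * e - 1) hc
  have : NeZero (4 * e) := ⟨by omega⟩
  rw [h, chr_aux (by omega), MulChar.one_apply ((ZMod.isUnit_iff_coprime _ _).2 hc)] at h1
  norm_num at h1

/-- a solution modulo a product of distinct primes -/
private theorem chr_crt (e : ℕ) (S : Finset ℕ) (hp : ∀ q ∈ S, q.Prime)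
    (h : ∀ q ∈ S, ∃ y : ℤ, (q : ℤ) ∣ (e : ℤ) + y ^ 2) :
    ∃ y : ℤ, ((∏ q ∈ S, q : ℕ) : ℤ) ∣ (e : ℤ) + y ^ 2 := by
  classical
  induction S using Finset.induction_on with
  | empty => exact ⟨0, by simp⟩
  | insert q S hq ih =>
    obtain ⟨y1, h1⟩ := h q (mem_insert_self _ _)
    obtain ⟨y2, h2⟩ := ih (fun r hr => hp r (mem_insert_of_mem hr))
      (fun r hr => h r (mem_insert_of_mem hr))
    have hqp := hp q (mem_insert_self _ _)
    have hcop : Nat.Coprime q (∏ r ∈ S, r) := by
      apply Nat.Coprime.prod_right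
      intro r hr
      exact (Nat.coprime_primes hqp (hp r (mem_insert_of_mem hr))).2 (fun hh => hq (hh ▸ hr))
    have hci : IsCoprime (q : ℤ) ((∏ r ∈ S, r : ℕ) : ℤ) := Nat.isCoprime_iff_coprime.2 hcop
    obtain ⟨s, t, hst⟩ := hci
    rw [prod_insert hq]
    refine ⟨y1 * (t * ((∏ r ∈ S, r : ℕ) : ℤ)) + y2 * (s * q), ?_⟩
    rw [Nat.cast_mul]
    apply IsCoprime.mul_dvd (Nat.isCoprime_iff_coprime.2 hcop)
    · have h3 : ∀ P : ℤ, s * q + t * P = 1 → (e : ℤ) + (y1 * (t * P) + y2 * (s * q)) ^ 2 =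
          (e : ℤ) + y1 ^ 2 + q * ((s * (y2 - y1)) * (y1 + (y1 * (t * P) + y2 * (s * q)))) := by
        intro P hP
        have h4 : y1 * (t * P) + y2 * (s * q) = y1 + q * (s * (y2 - y1)) := by
          linear_combination y1 * hP
        rw [h4]
        ring
      rw [h3 _ hst]
      exact dvd_add h1 (dvd_mul_right _ _)
    · have h3 : ∀ P : ℤ, s * q + t * P = 1 → (e : ℤ) + (y1 * (t * P) + y2 * (s * q)) ^ 2 =
          (e : ℤ) + y2 ^ 2 + P * ((t * (y1 - y2)) * (y2 + (y1 * (t * P) + y2 * (s * q)))) := by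
        intro P hP
        have h4 : y1 * (t * P) + y2 * (s * q) = y2 + P * (t * (y1 - y2)) := by
          linear_combination y2 * hP
        rw [h4]
        ring
      rw [h3 _ hst]
      exact dvd_add h2 (dvd_mul_right _ _)

theorem rr_rep (e : ℕ) (he : 1 ≤ e) (n : ℕ) (hn0 : 1 ≤ n) (hn : n.Coprime (4 * e))
    (h : rr (chi e he) n ≠ 0) :
    ∃ b m : ℕ, n = b * m ^ 2 ∧ 1 ≤ m ∧ ∃ y : ℤ, (b : ℤ) ∣ (e : ℤ) + y ^ 2 := by
  have : NeZero (4 * e) := ⟨by omega⟩
  obtain ⟨b, m, hbm, hsf⟩ := Nat.sq_mul_squarefree n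
  have hm : 1 ≤ m := by
    rcases Nat.eq_zero_or_pos m with h0 | h0
    · subst h0
      simp at hbm
      omega
    · exact h0
  refine ⟨b, m, by rw [← hbm]; ring, hm, ?_⟩
  have hb0 : b ≠ 0 := hsf.ne_zero
  have hprod : ∏ q ∈ b.primeFactors, q = b := Nat.prod_primeFactors_of_squarefree hsf
  rw [← hprod]
  apply chr_crt
  · intro q hq
    exact Nat.prime_of_mem_primeFactors hq
  intro q hq
  have hqp := Nat.prime_of_mem_primeFactors hq
  have hqb := Nat.dvd_of_mem_primeFactors hq
  have hqn : q ∣ n := hqb.trans ⟨m ^ 2, by rw [← hbm]; ring⟩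
  have hqN : ¬ q ∣ 4 * e := by
    intro h4
    have h5 : q ∣ 1 := by
      rw [← hn]
      exact Nat.dvd_gcd hqn h4
    exact hqp.one_lt.ne' (Nat.dvd_one.1 h5)
  -- the exponent of `q` in `n` is odd
  have hfac : Odd (n.factorization q) := by
    rw [← hbm, Nat.factorization_mul (by positivity) hb0, Nat.factorization_pow]
    have h5 : b.factorization q = 1 := by
      have h6 : b.factorization q ≤ 1 := hsf.natFactorization_le_one q
      have h7 : 1 ≤ b.factorization q := (hqp.dvd_iff_one_le_factorization hb0).1 hqb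
      omega
    simp only [Finsupp.coe_add, Finsupp.coe_smul, Pi.add_apply, Pi.smul_apply, h5, smul_eq_mul]
    exact ⟨m.factorization q, by ring⟩
  have hchi : chi e he (q : ZMod (4 * e)) = 1 := by
    rcases chi_unit (chi_real e he) hqp hqN with h5 | h5
    · exact h5
    · exfalso
      apply h
      have h6 : n = q ^ n.factorization q * (n / q ^ n.factorization q) :=
        (Nat.ordProj_mul_ordCompl_eq_self n q).symm
      have h7 : Nat.Coprime (q ^ n.factorization q) (n / q ^ n.factorization q) :=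
        (Nat.coprime_ordCompl hqp (by omega)).pow_left _
      have h8 : rrA (chi e he) n = rrA (chi e he) (q ^ n.factorization q) *
          rrA (chi e he) (n / q ^ n.factorization q) := by
        conv_lhs => rw [h6]
        exact (rrA_mult (chi_real e he)).map_mul_of_coprime h7
      have h9 : rrA (chi e he) (q ^ n.factorization q) = 0 := by
        rw [rrA_prime_pow (chi_real e he) hqp, h5]
        obtain ⟨t, ht⟩ := hfac
        rw [ht]
        have h10 : ∀ t : ℕ, ∑ j ∈ range (2 * t + 1 + 1), (-1 : ℂ).re ^ j = 0 := by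
          intro t
          induction t with
          | zero => simp [sum_range_succ]
          | succ t iht =>
            rw [show 2 * (t + 1) + 1 + 1 = 2 * t + 1 + 1 + 1 + 1 by ring, sum_range_succ,
              sum_range_succ, iht]
            simp [pow_succ, pow_mul]
        exact h10 t
      have h10 : rr (chi e he) n = rrA (chi e he) n := rfl
      rw [h10, h8, h9, zero_mul]
  have hJ : J(-(e : ℤ) | q) = 1 := by
    have h5 := chi_apply e he q ((hqp.coprime_iff_not_dvd).2 hqN)
    rw [hchi] at h5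
    exact_mod_cast h5.symm
  have : Fact q.Prime := ⟨hqp⟩
  rw [← jacobiSym.legendreSym.to_jacobiSym] at hJ
  have hne : ((-(e : ℤ) : ℤ) : ZMod q) ≠ 0 := by
    intro h5
    rw [legendreSym.eq_zero_iff _ _ |>.2 h5] at hJ
    norm_num at hJ
  obtain ⟨y, hy⟩ := (legendreSym.eq_one_iff q hne).1 hJ
  refine ⟨(y.val : ℤ), ?_⟩
  rw [← ZMod.intCast_zmod_eq_zero_iff_dvd]
  push_cast
  rw [ZMod.natCast_zmod_val]
  push_cast at hy
  linear_combination -hy

end Pool.Agent.MOD
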