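import Pool.Agent.MOD.Red

/-!
# The number of `b ≤ Y` which divide some `e + y²`, in terms of the number of reduced forms
-/

set_option autoImplicit false

namespace Pool.Agent.MOD

open Finset

open Classical in
/-- the numbers `b ≤ Y` dividing some `e + y²` -/
noncomputable def BB (e Y : ℕ) : Finset ℕ :=
  (Icc 1 Y).filter (fun b => ∃ y : ℤ, (b : ℤ) ∣ (e : ℤ) + y ^ 2)

private theorem cnt_line (a : ℕ) (ha : 1 ≤ a) (t T : ℝ) (hT : 0 ≤ T) :
    ((Icc ⌈(-T - t) / a⌉ ⌊(T - t) / a⌋).card : ℝ) ≤ 2 * T / a + 1 := by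
  have ha' : (0 : ℝ) < a := by exact_mod_cast ha
  rw [Int.card_Icc]
  have h1 : (((⌊(T - t) / a⌋ + 1 - ⌈(-T - t) / a⌉).toNat : ℕ) : ℝ) ≤
      max ((⌊(T - t) / a⌋ + 1 - ⌈(-T - t) / a⌉ : ℤ) : ℝ) 0 := by
    rcases le_total 0 (⌊(T - t) / a⌋ + 1 - ⌈(-T - t) / a⌉) with h | h
    · have h2 := Int.toNat_of_nonneg h
      have h3 : (((⌊(T - t) / a⌋ + 1 - ⌈(-T - t) / a⌉).toNat : ℕ) : ℝ) =
          ((⌊(T - t) / a⌋ + 1 - ⌈(-T - t) / a⌉ : ℤ) : ℝ) := by
        exact_mod_cast congrArg (Int.cast (R := ℝ)) h2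
      rw [h3]
      exact le_max_left _ _
    · rw [Int.toNat_of_nonpos h]
      simp
  refine h1.trans (max_le ?_ (by positivity))
  push_cast
  have h2 := Int.floor_le ((T - t) / a)
  have h3 := Int.le_ceil ((-T - t) / a)
  have h4 : (T - t) / a - (-T - t) / a = 2 * T / a := by
    field_simp
    ring
  linarith

theorem cnt (e Y : ℕ) (he : 2 ≤ e) (hY : 1 ≤ Y) :
    ((BB e Y).card : ℝ) ≤ (RF e).card * (4 * Y / √(e : ℝ) + 5 * √(Y : ℝ)) := by
  classical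
  have he0 : (0 : ℝ) < e := by exact_mod_cast (by omega : 0 < e)
  have hse : 0 < √(e : ℝ) := Real.sqrt_pos.2 he0
  have hY1 : (1 : ℝ) ≤ √(Y : ℝ) := Real.one_le_sqrt.2 (by exact_mod_cast hY)
  set R : ℕ × ℤ → ℝ := fun q => √((q.1 : ℝ) * Y) with hR
  set F : ℕ × ℤ → Finset ℕ := fun q =>
    (Icc ⌈(-(R q / √(e : ℝ)) - (0 : ℝ)) / (1 : ℕ)⌉ ⌊(R q / √(e : ℝ) - (0 : ℝ)) / (1 : ℕ)⌋).biUnion
      (fun v => (Icc ⌈(-(R q) - (q.2 * v : ℤ)) / (q.1 : ℝ)⌉ ⌊(R q - (q.2 * v : ℤ)) / (q.1 : ℝ)⌋).image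
        (fun u => ((q.1 : ℤ) * u ^ 2 + 2 * q.2 * u * v +
          (((e : ℤ) + q.2 ^ 2) / (q.1 : ℤ)) * v ^ 2).toNat)) with hF
  have hsub : BB e Y ⊆ (RF e).biUnion F := by
    intro b hb
    unfold BB at hb
    rw [mem_filter, mem_Icc] at hb
    obtain ⟨⟨hb1, hb2⟩, y, hy⟩ := hb
    obtain ⟨q, hq, c, u, v, w, z, g1, g2, g3, g4⟩ := red e (by omega) b hb1 y hy
    rw [mem_biUnion]
    refine ⟨q, hq, ?_⟩
    have hqr := mem_RF.1 hq
    have hq1 : (0 : ℤ) < (q.1 : ℤ) := by exact_mod_cast hqr.1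
    have hq1r : (0 : ℝ) < (q.1 : ℝ) := by exact_mod_cast hqr.1
    have hc : ((e : ℤ) + q.2 ^ 2) / (q.1 : ℤ) = c := by
      rw [← g1]
      exact Int.mul_ediv_cancel_left c hq1.ne'
    have key : ((q.1 : ℝ) * u + (q.2 * v : ℤ)) ^ 2 + e * (v : ℝ) ^ 2 = q.1 * b := by
      have k1 : ((q.1 : ℤ) * u + q.2 * v) ^ 2 + e * v ^ 2 = q.1 * b := by
        rw [← g3]
        linear_combination (-v ^ 2) * g1
      exact_mod_cast k1
    have hbY : (q.1 : ℝ) * b ≤ q.1 * Y :=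
      mul_le_mul_of_nonneg_left (by exact_mod_cast hb2) hq1r.le
    have hv2 : |(v : ℝ)| ≤ R q / √(e : ℝ) := by
      rw [le_div_iff₀ hse]
      simp only [hR]
      apply Real.le_sqrt_of_sq_le
      rw [mul_pow, sq_abs, Real.sq_sqrt he0.le]
      nlinarith [sq_nonneg ((q.1 : ℝ) * u + (q.2 * v : ℤ))]
    have hu2 : |(q.1 : ℝ) * u + (q.2 * v : ℤ)| ≤ R q := by
      simp only [hR]
      apply Real.le_sqrt_of_sq_le
      rw [sq_abs]
      nlinarith [sq_nonneg (v : ℝ)]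
    simp only [hF]
    rw [mem_biUnion]
    refine ⟨v, ?_, ?_⟩
    · rw [mem_Icc]
      have h5 := abs_le.1 hv2
      constructor
      · rw [Int.ceil_le]
        simp only [Nat.cast_one, div_one, sub_zero]
        exact h5.1
      · rw [Int.le_floor]
        simp only [Nat.cast_one, div_one, sub_zero]
        exact h5.2
    · rw [mem_image]
      refine ⟨u, ?_, ?_⟩
      · rw [mem_Icc]
        have h5 := abs_le.1 hu2
        constructor
        · rw [Int.ceil_le, div_le_iff₀ hq1r]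
          linarith
        · rw [Int.le_floor, le_div_iff₀ hq1r]
          linarith
      · rw [hc, g3]
        simp
  have hcard : ∀ q ∈ RF e, ((F q).card : ℝ) ≤ 4 * Y / √(e : ℝ) + 5 * √(Y : ℝ) := by
    intro q hq
    have hqr := mem_RF.1 hq
    have hq1r : (1 : ℝ) ≤ (q.1 : ℝ) := by exact_mod_cast hqr.1
    have hqe : (q.1 : ℝ) ≤ e := by
      have h1 := redf_sq hqr
      have h2 : (q.1 : ℤ) ≤ e := by
        have he' : (2 : ℤ) ≤ e := by exact_mod_cast he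
        by_contra hcon
        push Not at hcon
        nlinarith
      exact_mod_cast h2
    have hRnn : 0 ≤ R q := Real.sqrt_nonneg _
    have h1 : ((F q).card : ℝ) ≤ (2 * (R q / √(e : ℝ)) / (1 : ℕ) + 1) * (2 * R q / q.1 + 1) := by
      have h2 : ((F q).card : ℝ) ≤
          ∑ v ∈ Icc ⌈(-(R q / √(e : ℝ)) - (0 : ℝ)) / (1 : ℕ)⌉ ⌊(R q / √(e : ℝ) - (0 : ℝ)) / (1 : ℕ)⌋,
            (2 * R q / q.1 + 1) := by
        simp only [hF]
        refine (Nat.cast_le.2 card_biUnion_le).trans ?_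
        push_cast
        refine sum_le_sum fun v _ => ?_
        refine (Nat.cast_le.2 card_image_le).trans ?_
        have h3 := cnt_line q.1 hqr.1 ((q.2 : ℝ) * v) (R q) hRnn
        exact h3
      refine h2.trans ?_
      rw [sum_const, nsmul_eq_mul]
      refine mul_le_mul_of_nonneg_right ?_ (by positivity)
      exact cnt_line 1 le_rfl 0 (R q / √(e : ℝ)) (by positivity)
    refine h1.trans ?_
    have hR2 : R q ^ 2 = q.1 * Y := Real.sq_sqrt (by positivity)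
    have hRe : R q / √(e : ℝ) ≤ √(Y : ℝ) := by
      rw [div_le_iff₀ hse]
      simp only [hR]
      rw [← Real.sqrt_mul (by positivity)]
      apply Real.sqrt_le_sqrt
      nlinarith [(by positivity : (0 : ℝ) ≤ (Y : ℝ))]
    have hRa : R q / q.1 ≤ √(Y : ℝ) := by
      rw [div_le_iff₀ (by positivity)]
      simp only [hR]
      apply Real.sqrt_le_iff.2
      refine ⟨by positivity, ?_⟩
      rw [mul_pow, Real.sq_sqrt (by positivity)]
      nlinarith [(by positivity : (0 : ℝ) ≤ (Y : ℝ))]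
    have h5 : (2 * (R q / √(e : ℝ)) / (1 : ℕ) + 1) * (2 * R q / q.1 + 1) =
        4 * (R q ^ 2 / (q.1 * √(e : ℝ))) + 2 * (R q / √(e : ℝ)) + 2 * (R q / q.1) + 1 := by
      field_simp
      push_cast
      ring
    rw [h5, hR2]
    have h6 : (q.1 : ℝ) * Y / (q.1 * √(e : ℝ)) = Y / √(e : ℝ) := by
      rw [mul_div_mul_left _ _ (by positivity)]
    rw [h6]
    have h7 : 4 * ((Y : ℝ) / √(e : ℝ)) = 4 * Y / √(e : ℝ) := by ring
    linarith
  calc ((BB e Y).card : ℝ) ≤ ((RF e).biUnion F).card := by exact_mod_cast card_le_card hsub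
    _ ≤ ∑ q ∈ RF e, ((F q).card : ℝ) := by exact_mod_cast card_biUnion_le
    _ ≤ ∑ _q ∈ RF e, (4 * Y / √(e : ℝ) + 5 * √(Y : ℝ)) := sum_le_sum hcard
    _ = (RF e).card * (4 * Y / √(e : ℝ) + 5 * √(Y : ℝ)) := by rw [sum_const, nsmul_eq_mul]

end Pool.Agent.MOD
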