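import Pool.Agent.MOD.Up2

/-!
# Finiteness
-/

set_option autoImplicit false

namespace Pool.Agent.MOD

open Finset

private theorem fin_pp (p n : ℕ) (hp : p.Prime) (hp2 : p ≠ 2) (hn : n ≠ 0)
    (h : (insert p n.primeFactors).card ≤ 2) :
    ∃ A s B, s.Prime ∧ s ≠ p ∧ n = p ^ A * s ^ B := by
  classical
  obtain ⟨A, m, hm, hnm⟩ := Nat.exists_eq_pow_mul_and_not_dvd hn p hp.one_lt.ne'
  have hm0 : m ≠ 0 := by
    rintro rfl
    exact hm (dvd_zero p)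
  by_cases hm1 : m = 1
  · exact ⟨A, 2, 0, Nat.prime_two, fun h => hp2 h.symm, by rw [hnm, hm1]; simp⟩
  · have hs : m.minFac.Prime := Nat.minFac_prime hm1
    have hsm : m.minFac ∣ m := Nat.minFac_dvd m
    have hmn : m ∣ n := ⟨p ^ A, by rw [hnm]; ring⟩
    refine ⟨A, m.minFac, m.primeFactorsList.length, hs, ?_, ?_⟩
    · intro h1
      exact hm (h1 ▸ hsm)
    · have h2 : m = m.minFac ^ m.primeFactorsList.length := by
        refine Nat.eq_prime_pow_of_unique_prime_dvd hm0 ?_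
        intro r hr hrm
        by_contra hne
        have hsub : ({p, m.minFac, r} : Finset ℕ) ⊆ insert p n.primeFactors := by
          intro z hz
          simp only [mem_insert, mem_singleton] at hz
          rw [mem_insert]
          rcases hz with hz | hz | hz
          · exact Or.inl hz
          · exact Or.inr (hz ▸ Nat.mem_primeFactors.2 ⟨hs, hsm.trans hmn, hn⟩)
          · exact Or.inr (hz ▸ Nat.mem_primeFactors.2 ⟨hr, hrm.trans hmn, hn⟩)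
        have hc : ({p, m.minFac, r} : Finset ℕ).card = 3 := by
          refine card_eq_three.2 ⟨p, m.minFac, r, ?_, ?_, ?_, rfl⟩
          · intro h1
            exact hm (h1 ▸ hsm)
          · intro h1
            exact hm (h1 ▸ hrm)
          · exact fun h1 => hne h1.symm
        have := card_le_card hsub
        omega
      rw [hnm]
      exact congrArg (fun t => p ^ A * t) h2

private theorem fin_dec (d : ℕ) (hd : d % 4 = 2) (hsq : ¬ Squarefree d) :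
    ∃ p i e : ℕ, p.Prime ∧ p ≠ 2 ∧ 1 ≤ i ∧ ¬ p ^ 2 ∣ e ∧ e % 4 = 2 ∧ d = (p ^ i) ^ 2 * e := by
  rw [Nat.squarefree_iff_prime_squarefree] at hsq
  push Not at hsq
  obtain ⟨p, hp, hpd⟩ := hsq
  have hp2 : p ≠ 2 := by
    rintro rfl
    omega
  have hd0 : d ≠ 0 := by omega
  have hpp : p ^ 2 ≠ 1 := by
    have := hp.one_lt
    nlinarith
  obtain ⟨i, e, he, hde⟩ := Nat.exists_eq_pow_mul_and_not_dvd hd0 (p ^ 2) hpp
  have hi : 1 ≤ i := by
    rcases Nat.eq_zero_or_pos i with h0 | h0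
    · rw [h0, pow_zero, one_mul] at hde
      rw [hde, ← pow_two] at hpd
      exact absurd hpd he
    · exact h0
  have hde' : d = (p ^ i) ^ 2 * e := by rw [hde, ← pow_mul, ← pow_mul, mul_comm 2 i]
  refine ⟨p, i, e, hp, hp2, hi, he, ?_, hde'⟩
  have hodd : Odd (p ^ i) := (hp.odd_of_ne_two hp2).pow
  obtain ⟨k, hk⟩ := hodd
  have h1 : d = 4 * ((k ^ 2 + k) * e) + e := by
    rw [hde', hk]
    ring
  omega

private theorem fin_hyp (p i e : ℕ) (hp : p.Prime) (hp2 : p ≠ 2) (hi : 1 ≤ i) (he : e % 4 = 2)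
    (h : ∀ x : ℕ, Odd x → x ^ 2 ≤ (p ^ i) ^ 2 * e →
      ((p ^ i) ^ 2 * e + x ^ 2).primeFactors.card ≤ 2) : Hyp p e := by
  intro y hy hye
  have hodd : Odd (p ^ i) := (hp.odd_of_ne_two hp2).pow
  have h1 := h (p ^ i * y) (hodd.mul hy) (by
    rw [mul_pow]
    exact Nat.mul_le_mul_left _ hye)
  have h2 : (p ^ i) ^ 2 * e + (p ^ i * y) ^ 2 = (p ^ i) ^ 2 * (e + y ^ 2) := by ring
  rw [h2] at h1
  have hn : e + y ^ 2 ≠ 0 := by omega
  refine fin_pp p (e + y ^ 2) hp hp2 hn (le_trans (card_le_card ?_) h1)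
  intro z hz
  rw [mem_insert] at hz
  have hpi : (p ^ i) ^ 2 ≠ 0 := pow_ne_zero _ (pow_ne_zero _ hp.ne_zero)
  rcases hz with hz | hz
  · rw [hz, Nat.mem_primeFactors]
    refine ⟨hp, ?_, mul_ne_zero hpi hn⟩
    exact Dvd.dvd.mul_right (dvd_pow (dvd_pow_self p (by omega)) (by norm_num)) _
  · rw [Nat.mem_primeFactors] at hz ⊢
    exact ⟨hz.1, hz.2.1.mul_left _, mul_ne_zero hpi hn⟩

private theorem fin_pr (e K : ℕ) : ∃ r y : ℕ, r.Prime ∧ K < r ∧ r ∣ e + y ^ 2 := by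
  by_cases he : e = 0
  · obtain ⟨r, hr1, hr2⟩ := Nat.exists_infinite_primes (K + 1)
    exact ⟨r, 0, hr2, hr1, by simp [he]⟩
  have h1 : 1 + e * (Nat.factorial K) ^ 2 ≠ 1 := by
    have : 0 < e * (Nat.factorial K) ^ 2 :=
      Nat.mul_pos (by omega) (pow_pos (Nat.factorial_pos K) 2)
    omega
  have hr := Nat.minFac_prime h1
  have hrd := Nat.minFac_dvd (1 + e * (Nat.factorial K) ^ 2)
  refine ⟨(1 + e * (Nat.factorial K) ^ 2).minFac, e * Nat.factorial K, hr, ?_, ?_⟩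
  · by_contra hle
    have hle' : (1 + e * (Nat.factorial K) ^ 2).minFac ≤ K := by omega
    have h2 : (1 + e * (Nat.factorial K) ^ 2).minFac ∣ Nat.factorial K :=
      (hr.dvd_factorial).2 hle'
    have h3 : (1 + e * (Nat.factorial K) ^ 2).minFac ∣ e * (Nat.factorial K) ^ 2 :=
      (h2.trans (dvd_pow_self _ (by norm_num))).mul_left _
    have h4 : (1 + e * (Nat.factorial K) ^ 2).minFac ∣ 1 := (Nat.dvd_add_left h3).1 hrd
    exact hr.one_lt.ne' (Nat.dvd_one.1 h4)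
  · have h5 : e + (e * Nat.factorial K) ^ 2 = e * (1 + e * (Nat.factorial K) ^ 2) := by ring
    rw [h5]
    exact hrd.mul_left _

private theorem fin_mod (r d t x : ℕ) (h : r ∣ d + t ^ 2) (hx : x ≡ t [MOD r]) :
    r ∣ d + x ^ 2 := by
  have h1 : d + x ^ 2 ≡ d + t ^ 2 [MOD r] := Nat.ModEq.add_left d (hx.pow 2)
  exact (Nat.modEq_zero_iff_dvd.1 (h1.trans (Nat.modEq_zero_iff_dvd.2 h)))

private theorem fin_three (e : ℕ) (he : 1 ≤ e) : ∃ B : ℕ, ∀ t : ℕ, 1 ≤ t →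
    (∀ x : ℕ, Odd x → x ^ 2 ≤ t ^ 2 * e → (t ^ 2 * e + x ^ 2).primeFactors.card ≤ 2) →
    t ^ 2 * e < B := by
  obtain ⟨r1, y1, hr1, hk1, hd1⟩ := fin_pr e 2
  obtain ⟨r2, y2, hr2, hk2, hd2⟩ := fin_pr e r1
  obtain ⟨r3, y3, hr3, hk3, hd3⟩ := fin_pr e r2
  refine ⟨(2 * (r1 * r2 * r3)) ^ 2, fun t ht h => ?_⟩
  by_contra hB
  rw [not_lt] at hB
  have hdt : ∀ r y : ℕ, r ∣ e + y ^ 2 → r ∣ t ^ 2 * e + (t * y) ^ 2 := by
    intro r y hry
    have : t ^ 2 * e + (t * y) ^ 2 = t ^ 2 * (e + y ^ 2) := by ring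
    rw [this]
    exact hry.mul_left _
  have co12 : Nat.Coprime r1 r2 := (Nat.coprime_primes hr1 hr2).2 (by omega)
  have co13 : Nat.Coprime r1 r3 := (Nat.coprime_primes hr1 hr3).2 (by omega)
  have co23 : Nat.Coprime r2 r3 := (Nat.coprime_primes hr2 hr3).2 (by omega)
  have co123 : Nat.Coprime (r1 * r2) r3 := Nat.Coprime.mul_left co13 co23
  have coj : ∀ r : ℕ, r.Prime → 2 < r → Nat.Coprime 2 r := fun r hr h2 =>
    (Nat.coprime_primes Nat.prime_two hr).2 (by omega)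
  have co2 : Nat.Coprime 2 (r1 * r2 * r3) :=
    Nat.Coprime.mul_right (Nat.Coprime.mul_right (coj r1 hr1 hk1) (coj r2 hr2 (by omega)))
      (coj r3 hr3 (by omega))
  obtain ⟨a, ha1, ha2⟩ : ∃ a : ℕ, a ≡ t * y1 [MOD r1] ∧ a ≡ t * y2 [MOD r2] :=
    ⟨_, (Nat.chineseRemainder co12 (t * y1) (t * y2)).2⟩
  obtain ⟨b, hb1, hb2⟩ : ∃ b : ℕ, b ≡ a [MOD r1 * r2] ∧ b ≡ t * y3 [MOD r3] :=
    ⟨_, (Nat.chineseRemainder co123 a (t * y3)).2⟩
  have hne : r1 * r2 * r3 ≠ 0 :=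
    mul_ne_zero (mul_ne_zero hr1.ne_zero hr2.ne_zero) hr3.ne_zero
  obtain ⟨x, hx1, hx2, hx3⟩ : ∃ x : ℕ, x ≡ 1 [MOD 2] ∧ x ≡ b [MOD r1 * r2 * r3] ∧
      x < 2 * (r1 * r2 * r3) :=
    ⟨_, (Nat.chineseRemainder co2 1 b).2.1, (Nat.chineseRemainder co2 1 b).2.2,
      Nat.chineseRemainder_lt_mul co2 1 b (by norm_num) hne⟩
  have hodd : Odd x := by
    rw [Nat.odd_iff]
    exact hx1
  have hxr3 : x ≡ t * y3 [MOD r3] := (hx2.of_mul_left (r1 * r2)).trans hb2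
  have hx12 : x ≡ a [MOD r1 * r2] := (hx2.of_mul_right r3).trans hb1
  have hxr1 : x ≡ t * y1 [MOD r1] := (hx12.of_mul_right r2).trans ha1
  have hxr2 : x ≡ t * y2 [MOD r2] := (hx12.of_mul_left r1).trans ha2
  have hle : x ^ 2 ≤ t ^ 2 * e := (Nat.pow_le_pow_left hx3.le 2).trans hB
  have h1 := h x hodd hle
  have hn0 : t ^ 2 * e + x ^ 2 ≠ 0 := by
    have : 0 < t ^ 2 * e := Nat.mul_pos (pow_pos ht 2) he
    omega
  have hsub : ({r1, r2, r3} : Finset ℕ) ⊆ (t ^ 2 * e + x ^ 2).primeFactors := by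
    intro z hz
    simp only [mem_insert, mem_singleton] at hz
    rw [Nat.mem_primeFactors]
    rcases hz with hz | hz | hz
    · rw [hz]
      exact ⟨hr1, fin_mod _ _ _ _ (hdt r1 y1 hd1) hxr1, hn0⟩
    · rw [hz]
      exact ⟨hr2, fin_mod _ _ _ _ (hdt r2 y2 hd2) hxr2, hn0⟩
    · rw [hz]
      exact ⟨hr3, fin_mod _ _ _ _ (hdt r3 y3 hd3) hxr3, hn0⟩
  have hc : ({r1, r2, r3} : Finset ℕ).card = 3 :=
    card_eq_three.2 ⟨r1, r2, r3, by omega, by omega, by omega, rfl⟩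
  have := card_le_card hsub
  omega

/-- Only finitely many non-square-free `d ≡ 2 mod 4` have at most two prime factors in every
`d + x ^ 2`, `x` odd, `x ^ 2 ≤ d`. -/
theorem finite_Modd : {d : ℕ | d % 4 = 2 ∧ ¬ Squarefree d ∧
    ∀ x : ℕ, Odd x → x ^ 2 ≤ d → (d + x ^ 2).primeFactors.card ≤ 2}.Finite := by
  classical
  obtain ⟨E0, hE0⟩ := up2
  have hB : ∀ e : ℕ, ∃ B : ℕ, 1 ≤ e → ∀ t : ℕ, 1 ≤ t →
      (∀ x : ℕ, Odd x → x ^ 2 ≤ t ^ 2 * e → (t ^ 2 * e + x ^ 2).primeFactors.card ≤ 2) →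
      t ^ 2 * e < B := by
    intro e
    by_cases he : 1 ≤ e
    · obtain ⟨B, hB⟩ := fin_three e he
      exact ⟨B, fun _ => hB⟩
    · exact ⟨0, fun h => absurd h he⟩
  choose B hB using hB
  refine (Set.finite_Iio ((range E0).sup B)).subset ?_
  rintro d ⟨hd4, hsq, hd⟩
  obtain ⟨p, i, e, hp, hp2, hi, hpe, he4, hde⟩ := fin_dec d hd4 hsq
  rw [hde] at hd
  have hyp := fin_hyp p i e hp hp2 hi he4 hd
  have he : e < E0 := by
    by_contra hge
    exact hE0 e (by omega) he4 p hp hp2 hpe hyp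
  have h1 := hB e (by omega) (p ^ i) (pow_pos hp.pos i) hd
  rw [Set.mem_Iio, hde]
  exact h1.trans_le (le_sup (f := B) (mem_range.2 he))

end Pool.Agent.MOD
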