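import Pool.Agent.MOD.Chr
import Pool.Agent.GLI.Siegel
import Pool.Agent.FTA.DivB

/-!
# Siegel's lower bound for the character `n ↦ J(-e | n)`
-/

set_option autoImplicit false

namespace Pool.Agent.MOD

open Finset Pool.Agent.GLI

private theorem lon_prim (N : ℕ) [NeZero N] (χ : DirichletCharacter ℂ N) (h : RealChar χ)
    (hχ : χ ≠ 1) :
    RealChar χ.primitiveCharacter ∧ χ.primitiveCharacter ≠ 1 ∧ χ.conductor ∣ N ∧
      χ.conductor ≠ 0 := by
  have hd : χ.conductor ∣ N := DirichletCharacter.conductor_dvd_level χ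
  have hq0 : χ.conductor ≠ 0 := fun h0 => NeZero.ne N (Nat.eq_zero_of_zero_dvd (h0 ▸ hd))
  refine ⟨?_, ?_, hd, hq0⟩
  · intro a
    by_cases ha : IsUnit a
    · obtain ⟨u, rfl⟩ := ha
      obtain ⟨v, rfl⟩ := ZMod.unitsMap_surjective hd u
      have h1 := DirichletCharacter.changeLevel_eq_cast_of_dvd χ.primitiveCharacter hd v
      rw [DirichletCharacter.changeLevel_primitiveCharacter] at h1
      have h2 : ((ZMod.unitsMap hd v : (ZMod χ.conductor)ˣ) : ZMod χ.conductor) =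
          ZMod.cast (v : ZMod N) := ZMod.unitsMap_val hd v
      rw [h2, ← h1]
      exact h _
    · left
      exact MulChar.map_nonunit _ ha
  · intro h1
    apply hχ
    rw [← DirichletCharacter.changeLevel_primitiveCharacter χ, h1]
    exact DirichletCharacter.changeLevel_one _

/-- `∏ (1 - 1/p) ≥ 1 / d(N)` -/
private theorem lon_prod (N : ℕ) (hN : N ≠ 0) (f : ℕ → ℝ)
    (hf : ∀ p ∈ N.primeFactors, 1 / 2 ≤ f p) :
    1 / (N.divisors.card : ℝ) ≤ ∏ p ∈ N.primeFactors, f p := by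
  have h1 : (2 : ℝ) ^ N.primeFactors.card ≤ N.divisors.card := by
    rw [Nat.card_divisors hN]
    push_cast
    rw [← Finset.prod_const]
    refine Finset.prod_le_prod (fun _ _ => by norm_num) fun p hp => ?_
    have h2 : 1 ≤ N.factorization p := by
      rw [← (Nat.prime_of_mem_primeFactors hp).dvd_iff_one_le_factorization hN]
      exact Nat.dvd_of_mem_primeFactors hp
    have h3 : (1 : ℝ) ≤ (N.factorization p : ℝ) := by exact_mod_cast h2
    linarith
  have h4 : (1 / 2 : ℝ) ^ N.primeFactors.card ≤ ∏ p ∈ N.primeFactors, f p := by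
    rw [← Finset.prod_const]
    exact Finset.prod_le_prod (fun _ _ => by norm_num) hf
  refine le_trans ?_ h4
  rw [one_div_pow]
  exact one_div_le_one_div_of_le (by positivity) h1

theorem lon_tot (N : ℕ) (hN : N ≠ 0) : 1 / (N.divisors.card : ℝ) ≤ (N.totient : ℝ) / N := by
  have h1 : ((N.totient : ℚ) : ℝ) = ((N * ∏ p ∈ N.primeFactors, (1 - (p : ℚ)⁻¹) : ℚ) : ℝ) := by
    rw [Nat.totient_eq_mul_prod_factors]
  push_cast at h1
  rw [h1]
  have hN' : (N : ℝ) ≠ 0 := by exact_mod_cast hN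
  rw [mul_div_cancel_left₀ _ hN']
  refine lon_prod N hN _ fun p hp => ?_
  have h2 : (2 : ℝ) ≤ p := by exact_mod_cast (Nat.prime_of_mem_primeFactors hp).two_le
  have h3 : (p : ℝ)⁻¹ ≤ 2⁻¹ := inv_anti₀ (by norm_num) h2
  norm_num at h3 ⊢
  linarith

theorem lon_L1 (N : ℕ) [NeZero N] (χ : DirichletCharacter ℂ N) (h : RealChar χ) (hχ : χ ≠ 1)
    [NeZero χ.conductor] (hpos : 0 ≤ L1 χ.primitiveCharacter) :
    L1 χ.primitiveCharacter / (N.divisors.card : ℝ) ≤ L1 χ := by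
  obtain ⟨h1, h2, h3, h4⟩ := lon_prim N χ h hχ
  have h5 := DirichletCharacter.LFunction_changeLevel h3 χ.primitiveCharacter
    (s := 1) (Or.inl h2)
  rw [DirichletCharacter.changeLevel_primitiveCharacter] at h5
  have h6 : ∏ p ∈ N.primeFactors, (1 - χ.primitiveCharacter (p : ZMod χ.conductor) *
      (p : ℂ) ^ (-(1 : ℂ))) =
      ((∏ p ∈ N.primeFactors, (1 - (χ.primitiveCharacter (p : ZMod χ.conductor)).re *
        (p : ℝ)⁻¹) : ℝ) : ℂ) := by
    push_cast
    refine Finset.prod_congr rfl fun p _ => ?_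
    have h7 : χ.primitiveCharacter (p : ZMod χ.conductor) =
        (((χ.primitiveCharacter (p : ZMod χ.conductor)).re : ℝ) : ℂ) := by
      apply Complex.ext
      · simp
      · rw [h1.im_eq]
        simp
    rw [Complex.cpow_neg_one]
    rw [← h7]
  rw [h6] at h5
  have h8 : L1 χ = L1 χ.primitiveCharacter * ∏ p ∈ N.primeFactors,
      (1 - (χ.primitiveCharacter (p : ZMod χ.conductor)).re * (p : ℝ)⁻¹) := by
    unfold L1
    rw [h5, Complex.re_mul_ofReal]
  rw [h8, div_eq_mul_one_div]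
  refine mul_le_mul_of_nonneg_left ?_ hpos
  refine lon_prod N (NeZero.ne N) _ fun p hp => ?_
  have h9 : (2 : ℝ) ≤ p := by exact_mod_cast (Nat.prime_of_mem_primeFactors hp).two_le
  have h10 : (p : ℝ)⁻¹ ≤ 2⁻¹ := inv_anti₀ (by norm_num) h9
  have h11 : (0 : ℝ) ≤ (p : ℝ)⁻¹ := by positivity
  have h12 : (χ.primitiveCharacter (p : ZMod χ.conductor)).re ≤ 1 := by
    rcases h1 (p : ZMod χ.conductor) with h | h | h <;> rw [h] <;> norm_num
  norm_num at h10 ⊢
  nlinarith

/-- the lower bound for `φ(4e)/(4e) L(1, χ)` -/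
theorem lon (ε : ℝ) (hε : 0 < ε) : ∃ c : ℝ, 0 < c ∧ ∀ e : ℕ, ∀ he : 1 ≤ e, ∀ _ : NeZero (4 * e),
    c * ((4 * e : ℕ) : ℝ) ^ (-ε) ≤ ((4 * e).totient : ℝ) / ((4 * e : ℕ) : ℝ) * L1 (chi e he) := by
  obtain ⟨c0, hc0, hs⟩ := siegel (ε / 4) (by positivity)
  obtain ⟨c1, hc1, hd⟩ := Pool.Agent.FTA.divisor_bound (ε := ε / 4) (by positivity)
  refine ⟨c0 / c1 ^ 2, by positivity, ?_⟩
  intro e he hne
  have hN1 : (1 : ℝ) ≤ ((4 * e : ℕ) : ℝ) := by exact_mod_cast (by omega : 1 ≤ 4 * e)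
  have hN0 : (0 : ℝ) < ((4 * e : ℕ) : ℝ) := by linarith
  obtain ⟨h1, h2, h3, h4⟩ := lon_prim (4 * e) (chi e he) (chi_real e he) (chi_ne e he)
  have hq : NeZero (chi e he).conductor := ⟨h4⟩
  have h5 := hs (chi e he).conductor hq (chi e he).primitiveCharacter
    (DirichletCharacter.primitiveCharacter_isPrimitive _) h2 h1
  have hcN : ((chi e he).conductor : ℝ) ≤ ((4 * e : ℕ) : ℝ) := by
    exact_mod_cast Nat.le_of_dvd (by omega) h3
  have hc1' : (0 : ℝ) < ((chi e he).conductor : ℝ) := by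
    exact_mod_cast Nat.pos_of_ne_zero h4
  have h6 : c0 * ((4 * e : ℕ) : ℝ) ^ (-(ε / 4)) ≤ L1 (chi e he).primitiveCharacter := by
    refine le_trans ?_ h5
    refine mul_le_mul_of_nonneg_left ?_ hc0.le
    exact Real.rpow_le_rpow_of_nonpos hc1' hcN (by linarith)
  have h7 := lon_L1 (4 * e) (chi e he) (chi_real e he) (chi_ne e he)
    (le_trans (by positivity) h6)
  have h8 := lon_tot (4 * e) (by omega)
  have h9 := hd (4 * e) (by omega)
  set D : ℝ := ((4 * e).divisors.card : ℝ) with hD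
  set N : ℝ := ((4 * e : ℕ) : ℝ) with hN
  have hD0 : 0 < D := by
    rw [hD]
    exact_mod_cast Finset.card_pos.2 ⟨1, Nat.one_mem_divisors.2 (by omega)⟩
  have h10 : 1 / (c1 * N ^ (ε / 4)) ≤ 1 / D := one_div_le_one_div_of_le hD0 h9
  have hL0 : 0 ≤ c0 * N ^ (-(ε / 4)) := by positivity
  calc c0 / c1 ^ 2 * N ^ (-ε)
      ≤ 1 / (c1 * N ^ (ε / 4)) * (c0 * N ^ (-(ε / 4)) * (1 / (c1 * N ^ (ε / 4)))) := by
        have e1 : 1 / (c1 * N ^ (ε / 4)) * (c0 * N ^ (-(ε / 4)) * (1 / (c1 * N ^ (ε / 4)))) =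
            c0 / c1 ^ 2 * (N ^ (-(ε / 4)) * N ^ (-(ε / 4)) * N ^ (-(ε / 4))) := by
          rw [Real.rpow_neg hN0.le]
          field_simp
        rw [e1, ← Real.rpow_add hN0, ← Real.rpow_add hN0]
        refine mul_le_mul_of_nonneg_left ?_ (by positivity)
        exact Real.rpow_le_rpow_of_exponent_le hN1 (by linarith)
    _ ≤ 1 / D * (L1 (chi e he).primitiveCharacter * (1 / D)) := by
        gcongr
        exact le_trans hL0 h6
    _ ≤ ((4 * e).totient : ℝ) / N * L1 (chi e he) := by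
        refine mul_le_mul h8 ?_ ?_ (by positivity)
        · rw [mul_one_div]
          exact h7
        · exact mul_nonneg (le_trans hL0 h6) (by positivity)

end Pool.Agent.MOD
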