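import Pool.Agent.MOD.Lon
import Pool.Agent.GLI.RAsymp

/-!
# The lower bound for the number of reduced forms
-/

set_option autoImplicit false

namespace Pool.Agent.MOD

open Finset Filter Pool.Agent.GLI

private theorem low_harm (s : ℕ) : ∑ m ∈ Icc 1 s, (1 : ℝ) / m ≤ 1 + Real.log s := by
  have h1 := harmonic_le_one_add_log s
  rw [harmonic_eq_sum_Icc] at h1
  push_cast at h1
  simpa [one_div] using h1

theorem low_sum (e : ℕ) (he : 2 ≤ e) (M : ℝ) (hM0 : 0 ≤ M)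
    (hM : ∀ n ∈ Icc 1 e, (n.divisors.card : ℝ) ≤ M) :
    ∑ n ∈ (Icc 1 e).filter (fun n => n.Coprime (4 * e)), rr (chi e (by omega)) n ≤
      M * ((RF e).card * (9 * √(e : ℝ) * (1 + Real.log e))) := by
  classical
  have he0 : (0 : ℝ) < e := by exact_mod_cast (by omega : 0 < e)
  have hse : 0 < √(e : ℝ) := Real.sqrt_pos.2 he0
  set T := ((Icc 1 e).filter (fun n => n.Coprime (4 * e))).filter
    (fun n => rr (chi e (by omega)) n ≠ 0) with hT
  have h1 : ∑ n ∈ (Icc 1 e).filter (fun n => n.Coprime (4 * e)), rr (chi e (by omega)) n =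
      ∑ n ∈ T, rr (chi e (by omega)) n := by
    rw [hT, Finset.sum_filter_ne_zero]
  have h2 : ∑ n ∈ T, rr (chi e (by omega)) n ≤ ∑ _n ∈ T, M := by
    refine sum_le_sum fun n hn => ?_
    have h3 := (rr_nonneg (chi e (by omega)) (chi_real e _) n).2
    refine h3.trans (hM n ?_)
    exact (mem_filter.1 (mem_filter.1 hn).1).1
  have hsub : T ⊆ (Icc 1 (Nat.sqrt e)).biUnion
      (fun m => (BB e (e / m ^ 2)).image (fun b => b * m ^ 2)) := by
    intro n hn
    rw [hT, mem_filter, mem_filter, mem_Icc] at hn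
    obtain ⟨⟨⟨hn1, hn2⟩, hn3⟩, hn4⟩ := hn
    obtain ⟨b, m, hbm, hm, y, hy⟩ := rr_rep e (by omega) n hn1 hn3 hn4
    have hb : 1 ≤ b := by
      rcases Nat.eq_zero_or_pos b with h0 | h0
      · subst h0
        simp at hbm
        omega
      · exact h0
    have hm2 : 0 < m ^ 2 := by positivity
    have hle : b * m ^ 2 ≤ e := by rw [← hbm]; exact hn2
    rw [mem_biUnion]
    refine ⟨m, ?_, ?_⟩
    · rw [mem_Icc]
      refine ⟨hm, ?_⟩
      rw [Nat.le_sqrt']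
      exact (Nat.le_mul_of_pos_left _ hb).trans hle
    · rw [mem_image]
      refine ⟨b, ?_, hbm.symm⟩
      unfold BB
      rw [mem_filter, mem_Icc]
      exact ⟨⟨hb, (Nat.le_div_iff_mul_le hm2).2 hle⟩, y, hy⟩
  have hcard : (T.card : ℝ) ≤ (RF e).card * (9 * √(e : ℝ) * (1 + Real.log e)) := by
    have h4 : (T.card : ℝ) ≤ ∑ m ∈ Icc 1 (Nat.sqrt e), ((BB e (e / m ^ 2)).card : ℝ) := by
      refine (Nat.cast_le.2 ((card_le_card hsub).trans card_biUnion_le)).trans ?_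
      push_cast
      refine sum_le_sum fun m _ => ?_
      exact_mod_cast card_image_le
    have h5 : ∀ m ∈ Icc 1 (Nat.sqrt e), ((BB e (e / m ^ 2)).card : ℝ) ≤
        (RF e).card * (9 * √(e : ℝ)) * (1 / m) := by
      intro m hm
      rw [mem_Icc, Nat.le_sqrt'] at hm
      have hm0 : (0 : ℝ) < m := by exact_mod_cast (by omega : 0 < m)
      have hm1 : (1 : ℝ) ≤ m := by exact_mod_cast hm.1
      have hY1 : 1 ≤ e / m ^ 2 := by
        rw [Nat.le_div_iff_mul_le (pow_pos (by omega) 2)]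
        omega
      refine (cnt e (e / m ^ 2) he hY1).trans ?_
      have hY : ((e / m ^ 2 : ℕ) : ℝ) ≤ e / (m : ℝ) ^ 2 := by
        have := Nat.cast_div_le (α := ℝ) (m := e) (n := m ^ 2)
        push_cast at this
        exact this
      have h6 : 4 * ((e / m ^ 2 : ℕ) : ℝ) / √(e : ℝ) ≤ 4 * √(e : ℝ) * (1 / m) := by
        rw [div_le_iff₀ hse]
        have h7 : 4 * √(e : ℝ) * (1 / m) * √(e : ℝ) = 4 * (e / m) := by
          rw [show 4 * √(e : ℝ) * (1 / m) * √(e : ℝ) = 4 * (√(e : ℝ) * √(e : ℝ)) * (1 / m) by ring,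
            Real.mul_self_sqrt he0.le]
          ring
        rw [h7]
        have h8 : (e : ℝ) / (m : ℝ) ^ 2 ≤ e / m := by
          apply div_le_div_of_nonneg_left he0.le hm0
          nlinarith
        linarith
      have h7 : √((e / m ^ 2 : ℕ) : ℝ) ≤ √(e : ℝ) * (1 / m) := by
        refine (Real.sqrt_le_sqrt hY).trans (le_of_eq ?_)
        rw [Real.sqrt_div he0.le, Real.sqrt_sq hm0.le]
        ring
      have h8 : 4 * ((e / m ^ 2 : ℕ) : ℝ) / √(e : ℝ) + 5 * √((e / m ^ 2 : ℕ) : ℝ) ≤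
          9 * √(e : ℝ) * (1 / m) := by linarith
      calc ((RF e).card : ℝ) * (4 * ((e / m ^ 2 : ℕ) : ℝ) / √(e : ℝ) + 5 * √((e / m ^ 2 : ℕ) : ℝ))
          ≤ (RF e).card * (9 * √(e : ℝ) * (1 / m)) :=
            mul_le_mul_of_nonneg_left h8 (Nat.cast_nonneg _)
        _ = (RF e).card * (9 * √(e : ℝ)) * (1 / m) := by ring
    refine h4.trans ((sum_le_sum h5).trans ?_)
    rw [← mul_sum]
    have h6 := low_harm (Nat.sqrt e)
    have h7 : Real.log (Nat.sqrt e) ≤ Real.log e := by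
      apply Real.log_le_log
      · have : 0 < Nat.sqrt e := Nat.sqrt_pos.2 (by omega)
        exact_mod_cast this
      · exact_mod_cast Nat.sqrt_le_self e
    calc (RF e).card * (9 * √(e : ℝ)) * ∑ m ∈ Icc 1 (Nat.sqrt e), (1 : ℝ) / m
        ≤ (RF e).card * (9 * √(e : ℝ)) * (1 + Real.log e) :=
          mul_le_mul_of_nonneg_left (by linarith) (by positivity)
      _ = (RF e).card * (9 * √(e : ℝ) * (1 + Real.log e)) := by ring
  rw [h1]
  refine h2.trans ?_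
  rw [sum_const, nsmul_eq_mul, mul_comm]
  exact mul_le_mul_of_nonneg_left hcard hM0

theorem low : ∀ᶠ e : ℕ in atTop, (e : ℝ) ^ (2 / 5 : ℝ) ≤ (RF e).card := by
  obtain ⟨c, hc, hlon⟩ := lon (1 / 100) (by norm_num)
  obtain ⟨c1, hc1, hd⟩ := Pool.Agent.FTA.divisor_bound (ε := 1 / 100) (by norm_num)
  have h4e : Tendsto (fun e : ℕ => 4 * e) atTop atTop :=
    tendsto_id.const_mul_atTop' (by norm_num)
  filter_upwards [h4e.eventually (r_cop (1 / 100) (by norm_num)), eventually_ge_atTop 3,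
    ev_pow (98 / 100) (99 / 100) (by norm_num) 0 (8 / c),
    ev_pow (76 / 100) (99 / 100) (by norm_num) 0 (32 / c),
    ev_pow (2 / 5) (47 / 100) (by norm_num) 1 (18 * c1), ev_log 1] with e hr he hp1 hp2 hp3 hlog
  have he1 : 1 ≤ e := by omega
  have hne : NeZero (4 * e) := ⟨by omega⟩
  have he1r : (1 : ℝ) ≤ e := by exact_mod_cast he1
  have he0 : (0 : ℝ) < e := by linarith
  rw [pow_zero, mul_one] at hp1 hp2
  rw [pow_one] at hp3
  have h1 := hr hne (chi e he1) (chi_ne e he1) (chi_real e he1) e he1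
  have h2 := hlon e he1 hne
  have h3 := (abs_le.1 h1).1
  have h4 := low_sum e (by omega) (c1 * (e : ℝ) ^ (1 / 100 : ℝ)) (by positivity) (by
    intro n hn
    rw [mem_Icc] at hn
    refine (hd n (by omega)).trans ?_
    refine mul_le_mul_of_nonneg_left ?_ hc1.le
    exact Real.rpow_le_rpow (by positivity) (by exact_mod_cast hn.2) (by norm_num))
  -- the main term
  have h5 : c / 4 * (e : ℝ) ^ (99 / 100 : ℝ) ≤
      (e : ℝ) * (((4 * e).totient : ℝ) / ((4 * e : ℕ) : ℝ) * L1 (chi e he1)) := by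
    refine le_trans ?_ (mul_le_mul_of_nonneg_left h2 he0.le)
    have e1 : ((4 * e : ℕ) : ℝ) ^ (-(1 / 100) : ℝ) =
        (4 : ℝ) ^ (-(1 / 100) : ℝ) * (e : ℝ) ^ (-(1 / 100) : ℝ) := by
      push_cast
      rw [Real.mul_rpow (by norm_num) he0.le]
    rw [e1]
    have e2 : (1 / 4 : ℝ) ≤ (4 : ℝ) ^ (-(1 / 100) : ℝ) := by
      have : (4 : ℝ) ^ (-1 : ℝ) ≤ (4 : ℝ) ^ (-(1 / 100) : ℝ) :=
        Real.rpow_le_rpow_of_exponent_le (by norm_num) (by norm_num)
      rw [Real.rpow_neg_one] at this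
      linarith
    have e3 : (e : ℝ) ^ (99 / 100 : ℝ) = e * (e : ℝ) ^ (-(1 / 100) : ℝ) := by
      have := Real.rpow_add he0 1 (-(1 / 100))
      rw [Real.rpow_one] at this
      rw [← this]
      norm_num
    rw [e3]
    have e4 : 0 ≤ c * (e * (e : ℝ) ^ (-(1 / 100) : ℝ)) := by positivity
    nlinarith
  have h6 : √(e : ℝ) * ((4 * e : ℕ) : ℝ) ^ (1 / 4 + 1 / 100 : ℝ) ≤
      4 * (e : ℝ) ^ (76 / 100 : ℝ) := by
    have e1 : ((4 * e : ℕ) : ℝ) ^ (1 / 4 + 1 / 100 : ℝ) =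
        (4 : ℝ) ^ (1 / 4 + 1 / 100 : ℝ) * (e : ℝ) ^ (1 / 4 + 1 / 100 : ℝ) := by
      push_cast
      rw [Real.mul_rpow (by norm_num) he0.le]
    have e2 : (4 : ℝ) ^ (1 / 4 + 1 / 100 : ℝ) ≤ 4 := by
      have : (4 : ℝ) ^ (1 / 4 + 1 / 100 : ℝ) ≤ (4 : ℝ) ^ (1 : ℝ) :=
        Real.rpow_le_rpow_of_exponent_le (by norm_num) (by norm_num)
      rwa [Real.rpow_one] at this
    have e3 : √(e : ℝ) * (e : ℝ) ^ (1 / 4 + 1 / 100 : ℝ) = (e : ℝ) ^ (76 / 100 : ℝ) := by
      rw [Real.sqrt_eq_rpow, ← Real.rpow_add he0]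
      norm_num
    rw [e1, ← mul_assoc, mul_comm (√(e : ℝ)), mul_assoc, e3]
    exact mul_le_mul_of_nonneg_right e2 (by positivity)
  have h7 : (e : ℝ) ^ (98 / 100 : ℝ) ≤
      ∑ n ∈ (Icc 1 e).filter (fun n => n.Coprime (4 * e)), rr (chi e he1) n := by
    have e1 : (e : ℝ) ^ (98 / 100 : ℝ) ≤ c / 8 * (e : ℝ) ^ (99 / 100 : ℝ) := by
      have := mul_le_mul_of_nonneg_left hp1 (show 0 ≤ c / 8 by positivity)
      rw [← mul_assoc] at this
      have e5 : c / 8 * (8 / c) = 1 := by field_simp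
      rwa [e5, one_mul] at this
    have e2 : 4 * (e : ℝ) ^ (76 / 100 : ℝ) ≤ c / 8 * (e : ℝ) ^ (99 / 100 : ℝ) := by
      have := mul_le_mul_of_nonneg_left hp2 (show 0 ≤ c / 8 by positivity)
      rw [← mul_assoc] at this
      have e5 : c / 8 * (32 / c) = 4 := by field_simp; norm_num
      rwa [e5] at this
    linarith
  have h8 := h7.trans h4
  have hl : 1 + Real.log e ≤ 2 * Real.log e := by linarith
  have h9 : (e : ℝ) ^ (98 / 100 : ℝ) = (e : ℝ) ^ (1 / 100 : ℝ) * √(e : ℝ) *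
      (e : ℝ) ^ (47 / 100 : ℝ) := by
    rw [Real.sqrt_eq_rpow, ← Real.rpow_add he0, ← Real.rpow_add he0]
    norm_num
  have h10 : (e : ℝ) ^ (1 / 100 : ℝ) * √(e : ℝ) * (e : ℝ) ^ (47 / 100 : ℝ) ≤
      (e : ℝ) ^ (1 / 100 : ℝ) * √(e : ℝ) * ((RF e).card * (18 * c1 * Real.log e)) := by
    rw [← h9]
    refine h8.trans ?_
    calc c1 * (e : ℝ) ^ (1 / 100 : ℝ) * ((RF e).card * (9 * √(e : ℝ) * (1 + Real.log e)))
        ≤ c1 * (e : ℝ) ^ (1 / 100 : ℝ) * ((RF e).card * (9 * √(e : ℝ) * (2 * Real.log e))) := by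
          gcongr
      _ = _ := by ring
  have hpos : 0 < (e : ℝ) ^ (1 / 100 : ℝ) * √(e : ℝ) := by positivity
  have h11 := le_of_mul_le_mul_left h10 hpos
  have h12 : 18 * c1 * (e : ℝ) ^ (2 / 5 : ℝ) * Real.log e ≤
      (RF e).card * (18 * c1 * Real.log e) := hp3.trans h11
  have hpos2 : 0 < 18 * c1 * Real.log e := by positivity
  have h13 : (18 * c1 * Real.log e) * (e : ℝ) ^ (2 / 5 : ℝ) ≤
      (18 * c1 * Real.log e) * (RF e).card := by linarith
  exact le_of_mul_le_mul_left h13 hpos2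

end Pool.Agent.MOD
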