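import Mathlib

/-!
# Two finite sets of odd numbers `y ≤ √e`

`one_card`: at most two `y` with `p ^ A ∣ e + y²`, if `4 p^(2A) ≥ 3 e`.
-/

set_option autoImplicit false

namespace Pool.Agent.MOD

/-- a prime power dividing a product of two numbers which are not both divisible by the prime -/
theorem pp_dvd {r : ℤ} (hr : Prime r) (k : ℕ) {x y : ℤ} (h : r ^ k ∣ x * y)
    (hn : ¬ (r ∣ x ∧ r ∣ y)) : r ^ k ∣ x ∨ r ^ k ∣ y := by
  by_cases hx : r ∣ x
  · left
    have hy : ¬ r ∣ y := fun hy => hn ⟨hx, hy⟩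
    have hc : IsCoprime (r ^ k) y := by
      apply IsCoprime.pow_left
      exact (Prime.coprime_iff_not_dvd hr).2 hy
    exact hc.dvd_of_dvd_mul_right h
  · right
    have hc : IsCoprime (r ^ k) x := by
      apply IsCoprime.pow_left
      exact (Prime.coprime_iff_not_dvd hr).2 hx
    exact hc.dvd_of_dvd_mul_left h

private theorem one_two (p A e y1 y2 : ℕ) (hp : p.Prime) (hp2 : p ≠ 2) (hpe : ¬ p ^ 2 ∣ e)
    (he : 2 ≤ e) (hA : 3 * e ≤ 4 * (p ^ A) ^ 2) (h1 : Odd y1) (h2 : Odd y2) (h12 : y2 < y1)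
    (hy1 : y1 ^ 2 ≤ e) (hd1 : p ^ A ∣ e + y1 ^ 2) (hd2 : p ^ A ∣ e + y2 ^ 2) :
    y1 + y2 = 2 * p ^ A := by
  have hA1 : 1 ≤ A := by
    by_contra h0
    have : A = 0 := by omega
    subst this
    simp at hA
    omega
  have hodd : Odd (p ^ A) := (hp.odd_of_ne_two hp2).pow
  have hpi : Prime (p : ℤ) := Nat.prime_iff_prime_int.1 hp
  obtain ⟨m1, hm1⟩ := h1
  obtain ⟨m2, hm2⟩ := h2
  by_cases hpy : p ∣ y1
  · exfalso
    -- then `p ∣ e`, `A = 1`, `y1 = p = y2`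
    have hpe1 : p ∣ e := by
      have h3 : p ∣ e + y1 ^ 2 := (dvd_pow_self p (by omega)).trans hd1
      exact (Nat.dvd_add_left (dvd_pow hpy (by norm_num))).1 h3
    have hA2 : A = 1 := by
      by_contra h0
      apply hpe
      have h3 : p ^ 2 ∣ e + y1 ^ 2 := (pow_dvd_pow p (by omega)).trans hd1
      exact (Nat.dvd_add_left (pow_dvd_pow_of_dvd hpy 2)).1 h3
    subst hA2
    have hpy2 : p ∣ y2 := by
      have h3 : p ∣ e + y2 ^ 2 := by simpa using hd2
      exact hp.dvd_of_dvd_pow ((Nat.dvd_add_right hpe1).1 h3)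
    obtain ⟨t1, ht1⟩ := hpy
    obtain ⟨t2, ht2⟩ := hpy2
    rw [pow_one] at hA
    have ht : t1 < 2 := by
      by_contra h0
      push Not at h0
      have h3 : (2 * p) ^ 2 ≤ y1 ^ 2 := by
        apply Nat.pow_le_pow_left
        rw [ht1, mul_comm]
        exact Nat.mul_le_mul_left p h0
      have h4 : 0 < e := by omega
      nlinarith
    have ht2' : t2 < t1 := by
      rw [ht1, ht2] at h12
      exact lt_of_mul_lt_mul_left h12 (Nat.zero_le _)
    have : t2 = 0 := by omega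
    subst this
    omega
  · have hprod : (p : ℤ) ^ A ∣ ((y1 : ℤ) - y2) * ((y1 : ℤ) + y2) := by
      have h3 : ((y1 : ℤ) - y2) * ((y1 : ℤ) + y2) = ((e : ℤ) + y1 ^ 2) - ((e : ℤ) + y2 ^ 2) := by
        ring
      rw [h3]
      exact dvd_sub (by exact_mod_cast hd1) (by exact_mod_cast hd2)
    have hn : ¬ ((p : ℤ) ∣ (y1 : ℤ) - y2 ∧ (p : ℤ) ∣ (y1 : ℤ) + y2) := by
      rintro ⟨h3, h4⟩
      have h5 : (p : ℤ) ∣ 2 * (y1 : ℤ) := by
        have := dvd_add h3 h4
        rwa [show ((y1 : ℤ) - y2) + ((y1 : ℤ) + y2) = 2 * y1 by ring] at this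
      rcases hpi.dvd_or_dvd h5 with h6 | h6
      · have h7 : p ∣ 2 := by exact_mod_cast h6
        exact hp2 ((Nat.prime_dvd_prime_iff_eq hp Nat.prime_two).1 h7)
      · exact hpy (by exact_mod_cast h6)
    have hpA0 : 0 < p ^ A := pow_pos hp.pos A
    rcases pp_dvd hpi A hprod hn with h3 | h3
    · exfalso
      have h4 : p ^ A ∣ y1 - y2 := by
        have h5 : ((p ^ A : ℕ) : ℤ) ∣ ((y1 - y2 : ℕ) : ℤ) := by
          push_cast [Nat.cast_sub h12.le]
          exact h3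
        exact_mod_cast h5
      have h5 : 2 * p ^ A ∣ y1 - y2 := by
        have h6 : Nat.Coprime 2 (p ^ A) := by
          rw [Nat.coprime_two_left]
          exact hodd
        exact h6.mul_dvd_of_dvd_of_dvd ⟨m1 - m2, by omega⟩ h4
      have h6 := Nat.le_of_dvd (by omega) h5
      have h7 : (2 * p ^ A) ^ 2 ≤ y1 ^ 2 := Nat.pow_le_pow_left (by omega) 2
      nlinarith
    · have h4 : p ^ A ∣ y1 + y2 := by
        have h5 : ((p ^ A : ℕ) : ℤ) ∣ ((y1 + y2 : ℕ) : ℤ) := by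
          push_cast
          exact h3
        exact_mod_cast h5
      have h5 : 2 * p ^ A ∣ y1 + y2 := by
        have h6 : Nat.Coprime 2 (p ^ A) := by
          rw [Nat.coprime_two_left]
          exact hodd
        exact h6.mul_dvd_of_dvd_of_dvd ⟨m1 + m2 + 1, by omega⟩ h4
      obtain ⟨t, ht⟩ := h5
      have ht1 : t < 2 := by
        by_contra h0
        push Not at h0
        have h7 : 2 * p ^ A * 2 ≤ 2 * y1 := by
          have : 2 * p ^ A * 2 ≤ 2 * p ^ A * t := Nat.mul_le_mul_left _ h0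
          omega
        have h8 : (2 * p ^ A) ^ 2 ≤ y1 ^ 2 := Nat.pow_le_pow_left (by omega) 2
        nlinarith
      have ht2 : t ≠ 0 := by
        rintro rfl
        omega
      have ht3 : t = 1 := by omega
      rw [ht, ht3, mul_one]

open Classical in
theorem one_card (p A e : ℕ) (hp : p.Prime) (hp2 : p ≠ 2) (hpe : ¬ p ^ 2 ∣ e)
    (he : 2 ≤ e) (hA : 3 * e ≤ 4 * (p ^ A) ^ 2) :
    ((Finset.Icc 1 (Nat.sqrt e)).filter (fun y => Odd y ∧ p ^ A ∣ e + y ^ 2)).card ≤ 2 := by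
  by_contra hcon
  push Not at hcon
  obtain ⟨x, y, z, hx, hy, hz, hxy, hxz, hyz⟩ := Finset.two_lt_card_iff.1 hcon
  rw [Finset.mem_filter, Finset.mem_Icc, Nat.le_sqrt'] at hx hy hz
  have key : ∀ a b : ℕ, a ≠ b → (1 ≤ a ∧ a ^ 2 ≤ e) ∧ Odd a ∧ p ^ A ∣ e + a ^ 2 →
      (1 ≤ b ∧ b ^ 2 ≤ e) ∧ Odd b ∧ p ^ A ∣ e + b ^ 2 → a + b = 2 * p ^ A := by
    intro a b hab ha hb
    rcases lt_or_gt_of_ne hab with h | h
    · have := one_two p A e b a hp hp2 hpe he hA hb.2.1 ha.2.1 h hb.1.2 hb.2.2 ha.2.2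
      omega
    · exact one_two p A e a b hp hp2 hpe he hA ha.2.1 hb.2.1 h ha.1.2 ha.2.2 hb.2.2
  have h1 := key x y hxy hx hy
  have h2 := key x z hxz hx hz
  omega

end Pool.Agent.MOD
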