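import Mathlib

/-!
# Reduced forms of determinant `e`

`RF e`: the pairs `(a, k)` with `1 ≤ a`, `a ∣ e + k²`, `2 |k| ≤ a`, `a² ≤ e + k²`, i.e. the reduced forms
`a x² + 2 k x y + c y²`, `a c - k² = e`.
-/

set_option autoImplicit false

namespace Pool.Agent.MOD

/-- `(a, k)` is a reduced form of determinant `e` -/
def Redf (e : ℕ) (q : ℕ × ℤ) : Prop :=
  1 ≤ q.1 ∧ (q.1 : ℤ) ∣ (e : ℤ) + q.2 ^ 2 ∧ 2 * |q.2| ≤ (q.1 : ℤ) ∧
    (q.1 : ℤ) ^ 2 ≤ (e : ℤ) + q.2 ^ 2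

open Classical in
/-- the set of the reduced forms of determinant `e` -/
noncomputable def RF (e : ℕ) : Finset (ℕ × ℤ) :=
  ((Finset.range (2 * e + 1)) ×ˢ (Finset.Icc (-(e : ℤ)) e)).filter (Redf e)

theorem redf_sq {e : ℕ} {q : ℕ × ℤ} (h : Redf e q) : 3 * (q.1 : ℤ) ^ 2 ≤ 4 * (e : ℤ) := by
  obtain ⟨h1, -, h3, h4⟩ := h
  have h5 : 4 * q.2 ^ 2 ≤ (q.1 : ℤ) ^ 2 := by
    have h6 : (2 * |q.2|) ^ 2 ≤ (q.1 : ℤ) ^ 2 := pow_le_pow_left₀ (by positivity) h3 2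
    rw [mul_pow, sq_abs] at h6
    linarith
  linarith

theorem mem_RF {e : ℕ} {q : ℕ × ℤ} : q ∈ RF e ↔ Redf e q := by
  classical
  unfold RF
  rw [Finset.mem_filter]
  constructor
  · exact fun h => h.2
  · intro h
    refine ⟨?_, h⟩
    have h1 := redf_sq h
    obtain ⟨h2, -, h3, -⟩ := h
    have he : 1 ≤ e := by
      by_contra h0
      have : e = 0 := by omega
      subst this
      have : (1 : ℤ) ≤ (q.1 : ℤ) := by exact_mod_cast h2
      push_cast at h1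
      nlinarith
    have h2' : (1 : ℤ) ≤ (q.1 : ℤ) := by exact_mod_cast h2
    have he' : (1 : ℤ) ≤ (e : ℤ) := by exact_mod_cast he
    have h4 : (q.1 : ℤ) ≤ 2 * e := by nlinarith
    rw [Finset.mem_product, Finset.mem_range, Finset.mem_Icc]
    have h5 := abs_le.1 (show |q.2| ≤ (e : ℤ) by linarith)
    exact ⟨by omega, h5.1, h5.2⟩

/-- Every number `n` dividing `e + y²` is represented by a reduced form. -/
theorem red (e : ℕ) (he : 1 ≤ e) (n : ℕ) : ∀ (_ : 1 ≤ n) (y : ℤ) (_ : (n : ℤ) ∣ (e : ℤ) + y ^ 2),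
    ∃ q ∈ RF e, ∃ c u v w z : ℤ, (q.1 : ℤ) * c = (e : ℤ) + q.2 ^ 2 ∧ u * z - v * w = 1 ∧
      (q.1 : ℤ) * u ^ 2 + 2 * q.2 * u * v + c * v ^ 2 = (n : ℤ) ∧
      y = (q.1 : ℤ) * u * w + q.2 * (u * z + v * w) + c * v * z := by
  induction n using Nat.strong_induction_on with
  | _ n ih =>
  intro hn y hy
  have hn' : (0 : ℤ) < n := by exact_mod_cast hn
  obtain ⟨j, y0, hj, h1, h2⟩ : ∃ j y0 : ℤ, y = y0 + j * n ∧ -(n : ℤ) ≤ 2 * y0 ∧ 2 * y0 ≤ n := by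
    refine ⟨(2 * y + n) / (2 * n), y - (2 * y + n) / (2 * n) * n, by ring, ?_, ?_⟩
    · have h3 := Int.emod_add_mul_ediv (2 * y + n) (2 * n)
      have h4 := Int.emod_nonneg (2 * y + n) (show (2 * (n : ℤ)) ≠ 0 by positivity)
      linarith
    · have h3 := Int.emod_add_mul_ediv (2 * y + n) (2 * n)
      have h4 := Int.emod_lt_of_pos (2 * y + n) (show 0 < (2 * (n : ℤ)) by positivity)
      linarith
  have hd0 : (n : ℤ) ∣ (e : ℤ) + y0 ^ 2 := by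
    have h3 : (e : ℤ) + y0 ^ 2 = (e : ℤ) + y ^ 2 - n * (j * (2 * y0 + j * n)) := by
      rw [hj]
      ring
    rw [h3]
    exact dvd_sub hy (dvd_mul_right _ _)
  obtain ⟨c, hc⟩ := hd0
  have he' : (1 : ℤ) ≤ (e : ℤ) := by exact_mod_cast he
  have hc0 : 0 < c := by
    have : 0 < (n : ℤ) * c := by rw [← hc]; positivity
    exact pos_of_mul_pos_right this hn'.le
  by_cases hr : (n : ℤ) ^ 2 ≤ (e : ℤ) + y0 ^ 2
  · refine ⟨(n, y0), mem_RF.2 ⟨hn, ⟨c, hc⟩, ?_, hr⟩, c, 1, 0, j, 1, hc.symm, by ring, by simp, ?_⟩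
    · have h3 : |2 * y0| ≤ (n : ℤ) := abs_le.2 ⟨h1, h2⟩
      rw [abs_mul] at h3
      simpa using h3
    · simp only
      rw [hj]
      ring
  · push Not at hr
    have hcn : c < n := by
      rw [hc, sq] at hr
      exact lt_of_mul_lt_mul_left hr hn'.le
    obtain ⟨m, rfl⟩ := Int.eq_ofNat_of_zero_le hc0.le
    have hm1 : 1 ≤ m := by exact_mod_cast hc0
    obtain ⟨q, hq, c', u, v, w, z, g1, g2, g3, g4⟩ := ih m (by exact_mod_cast hcn) hm1 (-y0)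
      ⟨n, by rw [neg_sq, hc]; ring⟩
    have g5 : (q.1 : ℤ) * w ^ 2 + 2 * q.2 * w * z + c' * z ^ 2 = (n : ℤ) := by
      have hm' : (m : ℤ) ≠ 0 := hc0.ne'
      apply mul_left_cancel₀ hm'
      have g6 : (m : ℤ) * ((q.1 : ℤ) * w ^ 2 + 2 * q.2 * w * z + c' * z ^ 2) =
          ((q.1 : ℤ) * u * w + q.2 * (u * z + v * w) + c' * v * z) ^ 2 +
            ((q.1 : ℤ) * c' - q.2 ^ 2) * (u * z - v * w) ^ 2 := by
        rw [← g3]
        ring
      rw [g6, ← g4, g2, g1]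
      linear_combination hc
    refine ⟨q, hq, c', w, z, -u + j * w, -v + j * z, g1, ?_, g5, ?_⟩
    · linear_combination g2
    · rw [hj]
      linear_combination (-1 : ℤ) * g4 - j * g5

end Pool.Agent.MOD
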