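import Pool.Agent.MOD.One

/-!
# The solutions of `p S² = e + y²`
-/

set_option autoImplicit false

namespace Pool.Agent.MOD

/-- `(S, y)` is a solution of `p S² = e + y²` -/
structure Sol (p e S y : ℕ) : Prop where
  yo : Odd y
  ye : y ^ 2 ≤ e
  eq : p * S ^ 2 = e + y ^ 2
  co : Nat.Coprime S e

private theorem two_key (p e : ℕ) (hp : p.Prime) (hp2 : p ≠ 2) (hpe : ¬ p ^ 2 ∣ e)
    (he4 : e % 4 = 2) (S1 y1 S y T z : ℕ) (h1 : Sol p e S1 y1) (hy : Sol p e S y)
    (hz : Sol p e T z)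
    (hg : Int.gcd ((e / 2 : ℕ) : ℤ) ((S : ℤ) * y1 - S1 * y) =
      Int.gcd ((e / 2 : ℕ) : ℤ) ((T : ℤ) * y1 - S1 * z)) : y = z := by
  obtain ⟨e', rfl⟩ : ∃ e', e = 2 * e' := ⟨e / 2, by omega⟩
  have he'o : Odd e' := Nat.odd_iff.2 (by omega)
  rw [Nat.mul_div_cancel_left e' (by norm_num)] at hg
  have hp3 : 3 ≤ p := by
    have := hp.two_le
    omega
  -- `e'` divides `W`
  have hW : (e' : ℤ) ∣ (T : ℤ) * y - S * z := by
    rw [Int.natCast_dvd, Nat.dvd_iff_prime_pow_dvd_dvd]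
    intro r k hr hk
    have hri : Prime (r : ℤ) := Nat.prime_iff_prime_int.1 hr
    have hki : (r : ℤ) ^ k ∣ (e' : ℤ) := by exact_mod_cast hk
    suffices hs : (r : ℤ) ^ k ∣ (T : ℤ) * y - S * z by
      have h5 : ((r ^ k : ℕ) : ℤ) ∣ (T : ℤ) * y - S * z := by
        push_cast
        exact hs
      exact Int.natCast_dvd.1 h5
    rcases Nat.eq_zero_or_pos k with hk0 | hk0
    · subst hk0
      simp
    have hre' : r ∣ e' := (dvd_pow_self r (by omega)).trans hk
    have hre : r ∣ 2 * e' := hre'.trans (Dvd.intro_left 2 rfl)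
    have hr2 : r ≠ 2 := by
      rintro rfl
      obtain ⟨c, hc⟩ := hre'
      obtain ⟨d, hd⟩ := he'o
      omega
    -- the coprimality
    have hcop : ∀ {U v : ℕ}, Sol p (2 * e') U v → ¬ r ∣ U := by
      intro U v h h3
      have h4 : r ∣ 1 := by
        rw [← h.co]
        exact Nat.dvd_gcd h3 hre
      exact hr.one_lt.ne' (Nat.dvd_one.1 h4)
    by_cases hrp : r = p
    · subst hrp
      have hk1 : k = 1 := by
        by_contra h0
        apply hpe
        exact ((pow_dvd_pow r (by omega)).trans hk).trans (Dvd.intro_left 2 rfl)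
      subst hk1
      have hdy : ∀ {U v : ℕ}, Sol r (2 * e') U v → (r : ℤ) ∣ (v : ℤ) := by
        intro U v h
        have h3 : r ∣ 2 * e' + v ^ 2 := by
          rw [← h.eq]
          exact dvd_mul_right _ _
        have h4 : r ∣ v ^ 2 := (Nat.dvd_add_right hre).1 h3
        exact_mod_cast hr.dvd_of_dvd_pow h4
      rw [pow_one]
      exact dvd_sub (Dvd.dvd.mul_left (hdy hy) _) (Dvd.dvd.mul_left (hdy hz) _)
    · have hry : ∀ {U v : ℕ}, Sol p (2 * e') U v → ¬ r ∣ v := by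
        intro U v h h3
        have h4 : r ∣ p * U ^ 2 := by
          rw [h.eq]
          exact dvd_add hre (dvd_pow h3 (by norm_num))
        rcases (hr.dvd_mul).1 h4 with h5 | h5
        · exact hrp ((Nat.prime_dvd_prime_iff_eq hr hp).1 h5)
        · exact hcop h (hr.dvd_of_dvd_pow h5)
      -- `r^k` divides `U V`
      have hUV : ∀ {U v : ℕ}, Sol p (2 * e') U v →
          (r : ℤ) ^ k ∣ ((U : ℤ) * y1 - S1 * v) * ((U : ℤ) * y1 + S1 * v) := by
        intro U v h
        have a1 : (p : ℤ) * (U : ℤ) ^ 2 = 2 * e' + (v : ℤ) ^ 2 := by exact_mod_cast h.eq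
        have a2 : (p : ℤ) * (S1 : ℤ) ^ 2 = 2 * e' + (y1 : ℤ) ^ 2 := by exact_mod_cast h1.eq
        have a3 : ((U : ℤ) * y1 - S1 * v) * ((U : ℤ) * y1 + S1 * v) =
            e' * (2 * ((S1 : ℤ) ^ 2 - U ^ 2)) := by
          linear_combination (-(U : ℤ) ^ 2) * a2 + (S1 : ℤ) ^ 2 * a1
        rw [a3]
        exact hki.trans (dvd_mul_right _ _)
      have hor : ∀ {U v : ℕ}, Sol p (2 * e') U v →
          (r : ℤ) ^ k ∣ (U : ℤ) * y1 - S1 * v ∨ (r : ℤ) ^ k ∣ (U : ℤ) * y1 + S1 * v := by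
        intro U v h
        refine pp_dvd hri k (hUV h) ?_
        rintro ⟨h3, h4⟩
        have h5 : (r : ℤ) ∣ 2 * ((U : ℤ) * y1) := by
          have := dvd_add h3 h4
          rwa [show ((U : ℤ) * y1 - S1 * v) + ((U : ℤ) * y1 + S1 * v) = 2 * ((U : ℤ) * y1) by
            ring] at this
        rcases hri.dvd_or_dvd h5 with h6 | h6
        · have h7 : r ∣ 2 := by exact_mod_cast h6
          exact hr2 ((Nat.prime_dvd_prime_iff_eq hr Nat.prime_two).1 h7)
        · rcases hri.dvd_or_dvd h6 with h7 | h7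
          · exact hcop h (by exact_mod_cast h7)
          · exact hry h1 (by exact_mod_cast h7)
      -- finish
      have hfin : (r : ℤ) ^ k ∣ (S1 : ℤ) * ((T : ℤ) * y - S * z) →
          (r : ℤ) ^ k ∣ (T : ℤ) * y - S * z := by
        intro h3
        have hc : IsCoprime ((r : ℤ) ^ k) (S1 : ℤ) := by
          apply IsCoprime.pow_left
          exact (Prime.coprime_iff_not_dvd hri).2 (fun h4 => hcop h1 (by exact_mod_cast h4))
        exact hc.dvd_of_dvd_mul_left h3
      apply hfin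
      by_cases hU : (r : ℤ) ^ k ∣ (S : ℤ) * y1 - S1 * y
      · have h3 : (r : ℤ) ^ k ∣ ((Int.gcd (e' : ℤ) ((S : ℤ) * y1 - S1 * y) : ℕ) : ℤ) :=
          Int.dvd_coe_gcd hki hU
        rw [hg] at h3
        have h4 : (r : ℤ) ^ k ∣ (T : ℤ) * y1 - S1 * z := h3.trans (Int.gcd_dvd_right ..)
        have h5 : (S1 : ℤ) * ((T : ℤ) * y - S * z) =
            S * ((T : ℤ) * y1 - S1 * z) - T * ((S : ℤ) * y1 - S1 * y) := by ring
        rw [h5]
        exact dvd_sub (Dvd.dvd.mul_left h4 _) (Dvd.dvd.mul_left hU _)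
      · have hU2 : ¬ (r : ℤ) ^ k ∣ (T : ℤ) * y1 - S1 * z := by
          intro h3
          have h4 : (r : ℤ) ^ k ∣ ((Int.gcd (e' : ℤ) ((T : ℤ) * y1 - S1 * z) : ℕ) : ℤ) :=
            Int.dvd_coe_gcd hki h3
          rw [← hg] at h4
          exact hU (h4.trans (Int.gcd_dvd_right ..))
        have hV1 := (hor hy).resolve_left hU
        have hV2 := (hor hz).resolve_left hU2
        have h5 : (S1 : ℤ) * ((T : ℤ) * y - S * z) =
            T * ((S : ℤ) * y1 + S1 * y) - S * ((T : ℤ) * y1 + S1 * z) := by ring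
        rw [h5]
        exact dvd_sub (Dvd.dvd.mul_left hV1 _) (Dvd.dvd.mul_left hV2 _)
  -- `2` divides `W`
  have hSo : ∀ {U v : ℕ}, Sol p (2 * e') U v → Odd U := by
    intro U v h
    have h3 : Odd (p * U ^ 2) := by
      rw [h.eq]
      have h4 : Odd (v ^ 2) := h.yo.pow
      exact Even.add_odd ⟨e', by ring⟩ h4
    have h4 : Odd (U ^ 2) := (Nat.odd_mul.1 h3).2
    by_contra h5
    rw [Nat.not_odd_iff_even] at h5
    have h6 : Even (U ^ 2) := (Nat.even_pow.2 ⟨h5, by norm_num⟩)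
    exact (Nat.not_even_iff_odd.2 h4) h6
  have h2W : (2 : ℤ) ∣ (T : ℤ) * y - S * z := by
    obtain ⟨a, ha⟩ := (hSo hz).mul hy.yo
    obtain ⟨b, hb⟩ := (hSo hy).mul hz.yo
    refine ⟨(a : ℤ) - b, ?_⟩
    have ha' : (T : ℤ) * y = 2 * a + 1 := by exact_mod_cast ha
    have hb' : (S : ℤ) * z = 2 * b + 1 := by exact_mod_cast hb
    linear_combination ha' - hb'
  have heW : (2 : ℤ) * e' ∣ (T : ℤ) * y - S * z := by
    apply IsCoprime.mul_dvd _ h2W hW
    have : Nat.Coprime 2 e' := by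
      rw [Nat.coprime_two_left]
      exact he'o
    exact_mod_cast Nat.isCoprime_iff_coprime.2 this
  -- sizes
  have hsz : ∀ {U v U' v' : ℕ}, Sol p (2 * e') U v → Sol p (2 * e') U' v' →
      ((U : ℤ) * v') < 2 * e' := by
    intro U v U' v' h h'
    have b1 : 3 * U ^ 2 ≤ 2 * (2 * e') := by
      have c1 : 3 * U ^ 2 ≤ p * U ^ 2 := Nat.mul_le_mul_right _ hp3
      have c2 := h.eq
      have c3 := h.ye
      omega
    have b2 := h'.ye
    have b3 : (U * v') ^ 2 < (2 * e') ^ 2 := by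
      have c1 : 3 * (U * v') ^ 2 ≤ 2 * (2 * e') * (2 * e') := by
        calc 3 * (U * v') ^ 2 = (3 * U ^ 2) * v' ^ 2 := by ring
          _ ≤ (2 * (2 * e')) * (2 * e') := Nat.mul_le_mul b1 b2
      have c2 : 0 < e' := he'o.pos
      nlinarith
    have b4 : U * v' < 2 * e' := lt_of_pow_lt_pow_left₀ 2 (Nat.zero_le _) b3
    exact_mod_cast b4
  have hW0 : (T : ℤ) * y - S * z = 0 := by
    have c1 := hsz hz hy
    have c2 := hsz hy hz
    have c3 : (0 : ℤ) ≤ (T : ℤ) * y := by positivity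
    have c4 : (0 : ℤ) ≤ (S : ℤ) * z := by positivity
    apply Int.eq_zero_of_abs_lt_dvd heW
    rw [abs_lt]
    constructor <;> linarith
  have hW1 : T * y = S * z := by
    have : (T : ℤ) * y = S * z := by linarith
    exact_mod_cast this
  have h3 : (2 * e' + z ^ 2) * y ^ 2 = (2 * e' + y ^ 2) * z ^ 2 := by
    rw [← hz.eq, ← hy.eq]
    calc p * T ^ 2 * y ^ 2 = p * (T * y) ^ 2 := by ring
      _ = p * (S * z) ^ 2 := by rw [hW1]
      _ = p * S ^ 2 * z ^ 2 := by ring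
  have h4 : (2 * e') * y ^ 2 = (2 * e') * z ^ 2 := by nlinarith
  have h5 : y ^ 2 = z ^ 2 := Nat.eq_of_mul_eq_mul_left (by have := he'o.pos; omega) h4
  exact Nat.pow_left_injective (by norm_num) h5

open Classical in
theorem two_card (p e : ℕ) (hp : p.Prime) (hp2 : p ≠ 2) (hpe : ¬ p ^ 2 ∣ e)
    (he4 : e % 4 = 2) :
    ((Finset.Icc 1 (Nat.sqrt e)).filter (fun y => ∃ S, Sol p e S y)).card ≤
      (e / 2).divisors.card := by
  rcases Finset.eq_empty_or_nonempty
    ((Finset.Icc 1 (Nat.sqrt e)).filter (fun y => ∃ S, Sol p e S y)) with h0 | ⟨y1, hy1⟩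
  · rw [h0]
    simp
  · rw [Finset.mem_filter] at hy1
    obtain ⟨-, S1, h1⟩ := hy1
    have hch : ∀ y : ℕ, ∃ S : ℕ, (∃ S, Sol p e S y) → Sol p e S y := by
      intro y
      by_cases h : ∃ S, Sol p e S y
      · obtain ⟨S, hS⟩ := h
        exact ⟨S, fun _ => hS⟩
      · exact ⟨0, fun h' => absurd h' h⟩
    choose S hS using hch
    apply Finset.card_le_card_of_injOn
      (fun y => Int.gcd ((e / 2 : ℕ) : ℤ) ((S y : ℤ) * y1 - S1 * y))
    · intro y _
      simp only [Finset.coe_sort_coe, Finset.mem_coe, Nat.mem_divisors]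
      refine ⟨?_, by omega⟩
      have := Int.gcd_dvd_left (a := ((e / 2 : ℕ) : ℤ)) (b := (S y : ℤ) * y1 - S1 * y)
      exact_mod_cast this
    · intro y hy z hz hyz
      have hy' := (Finset.mem_filter.1 (Finset.mem_coe.1 hy)).2
      have hz' := (Finset.mem_filter.1 (Finset.mem_coe.1 hz)).2
      exact two_key p e hp hp2 hpe he4 S1 y1 (S y) y (S z) z h1 (hS y hy') (hS z hz') hyz

end Pool.Agent.MOD
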