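import Pool.Agent.MOD.Two

/-!
# The odd `y ≤ √e` such that `e + y²` has a small prime factor different from `p`
-/

set_option autoImplicit false

namespace Pool.Agent.MOD

open Finset

open Classical in
/-- the odd `y ≤ √e` with `e + y² = p^A s^B`, `B ≥ 1`, `3 s² ≤ 4 e` -/
noncomputable def YY (p e : ℕ) : Finset ℕ :=
  (Icc 1 (Nat.sqrt e)).filter (fun y => Odd y ∧ ∃ A s B : ℕ, s.Prime ∧ s ≠ p ∧ 1 ≤ B ∧
    3 * s ^ 2 ≤ 4 * e ∧ e + y ^ 2 = p ^ A * s ^ B)

theorem yon (p e S0 : ℕ) (hp : p.Prime) (hp2 : p ≠ 2) (hpe : ¬ p ^ 2 ∣ e) (he4 : e % 4 = 2)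
    (hS0 : ∀ s : ℕ, s ^ 3 ≤ 2 * e → s < S0) :
    (YY p e).card ≤ S0 * ((Nat.log 2 (2 * e) + 1) * (Nat.log 2 (2 * e) + 1)) +
      (Nat.log 2 (2 * e) + 1) * 2 + e.divisors.card * (Nat.log 2 (2 * e) + 1) +
      (e / 2).divisors.card := by
  classical
  set L := Nat.log 2 (2 * e) + 1 with hL
  have he0 : 0 < e := by omega
  have hlt : ∀ q A : ℕ, 2 ≤ q → q ^ A ≤ 2 * e → A < L := by
    intro q A hq hqA
    have h1 : 2 ^ A ≤ 2 * e := (Nat.pow_le_pow_left hq A).trans hqA
    have h2 : A ≤ Nat.log 2 (2 * e) := Nat.le_log_of_pow_le (by norm_num) h1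
    omega
  set F1 : Finset ℕ := ((range S0) ×ˢ ((range L) ×ˢ (range L))).image
    (fun t : ℕ × ℕ × ℕ => Nat.sqrt (p ^ t.2.1 * t.1 ^ t.2.2 - e)) with hF1
  set F2 : Finset ℕ := ((range L).filter (fun A => 3 * e ≤ 4 * (p ^ A) ^ 2)).biUnion
    (fun A => (Icc 1 (Nat.sqrt e)).filter (fun y => Odd y ∧ p ^ A ∣ e + y ^ 2)) with hF2
  set F3 : Finset ℕ := (e.divisors ×ˢ (range L)).image
    (fun t : ℕ × ℕ => Nat.sqrt (p ^ t.2 * t.1 ^ 2 - e)) with hF3
  set F4 : Finset ℕ := (Icc 1 (Nat.sqrt e)).filter (fun y => ∃ S, Sol p e S y) with hF4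
  have hsub : YY p e ⊆ F1 ∪ F2 ∪ F3 ∪ F4 := by
    intro y hy
    unfold YY at hy
    rw [mem_filter] at hy
    obtain ⟨hyI, hyo, A, s, B, hs, hsp, hB, h3s, heq⟩ := hy
    have hyI' := hyI
    rw [mem_Icc, Nat.le_sqrt'] at hyI'
    have hpA : p ^ A ≤ 2 * e := by
      have h1 : p ^ A ≤ p ^ A * s ^ B := Nat.le_mul_of_pos_right _ (pow_pos hs.pos B)
      omega
    have hsB : s ^ B ≤ 2 * e := by
      have h1 : s ^ B ≤ p ^ A * s ^ B := Nat.le_mul_of_pos_left _ (pow_pos hp.pos A)
      omega
    have hAL := hlt p A hp.two_le hpA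
    have hBL := hlt s B hs.two_le hsB
    have hsq : Nat.sqrt (p ^ A * s ^ B - e) = y := by
      rw [← heq, Nat.add_sub_cancel_left]
      exact Nat.sqrt_eq' y
    by_cases hB3 : 3 ≤ B
    · refine mem_union_left _ (mem_union_left _ (mem_union_left _ ?_))
      rw [hF1, mem_image]
      refine ⟨(s, A, B), ?_, hsq⟩
      rw [mem_product, mem_product, mem_range, mem_range, mem_range]
      refine ⟨hS0 s ?_, hAL, hBL⟩
      exact (Nat.pow_le_pow_right hs.pos hB3).trans hsB
    · by_cases hB1 : B = 1
      · refine mem_union_left _ (mem_union_left _ (mem_union_right _ ?_))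
        subst hB1
        rw [pow_one] at heq
        rw [hF2, mem_biUnion]
        refine ⟨A, ?_, ?_⟩
        · rw [mem_filter, mem_range]
          refine ⟨hAL, ?_⟩
          have h1 : e ≤ p ^ A * s := by omega
          have h2 : e * e ≤ (p ^ A * s) * (p ^ A * s) := Nat.mul_le_mul h1 h1
          have h3 : (3 * e) * e ≤ (4 * (p ^ A) ^ 2) * e := by
            calc (3 * e) * e = 3 * (e * e) := by ring
              _ ≤ 3 * ((p ^ A * s) * (p ^ A * s)) := Nat.mul_le_mul_left 3 h2
              _ = (p ^ A) ^ 2 * (3 * s ^ 2) := by ring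
              _ ≤ (p ^ A) ^ 2 * (4 * e) := Nat.mul_le_mul_left _ h3s
              _ = (4 * (p ^ A) ^ 2) * e := by ring
          exact Nat.le_of_mul_le_mul_right h3 he0
        · rw [mem_filter]
          exact ⟨hyI, hyo, ⟨s, heq⟩⟩
      · have hB2 : B = 2 := by omega
        subst hB2
        by_cases hse : s ∣ e
        · refine mem_union_left _ (mem_union_right _ ?_)
          rw [hF3, mem_image]
          refine ⟨(s, A), ?_, hsq⟩
          rw [mem_product, Nat.mem_divisors, mem_range]
          exact ⟨⟨hse, by omega⟩, hAL⟩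
        · refine mem_union_right _ ?_
          rw [hF4, mem_filter]
          refine ⟨hyI, ?_⟩
          have hAodd : Odd A := by
            by_contra h0
            rw [Nat.not_odd_iff_even] at h0
            obtain ⟨j, hj⟩ := h0
            have h1 : e + y ^ 2 = (p ^ j * s) ^ 2 := by
              rw [heq, hj]
              ring
            have h2 : (e + y ^ 2) % 4 = 3 := by
              obtain ⟨m, hm⟩ := hyo
              have h3 : y ^ 2 % 4 = 1 := by
                rw [hm, show (2 * m + 1) ^ 2 = 4 * (m ^ 2 + m) + 1 by ring]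
                omega
              omega
            rw [h1] at h2
            have h4 : (p ^ j * s) % 4 < 4 := Nat.mod_lt _ (by norm_num)
            rw [Nat.pow_mod] at h2
            interval_cases ((p ^ j * s) % 4) <;> simp at h2
          obtain ⟨j, hj⟩ := hAodd
          refine ⟨p ^ j * s, hyo, hyI'.2, ?_, ?_⟩
          · rw [heq, hj]
            ring
          · apply Nat.Coprime.mul_left
            · rcases Nat.eq_zero_or_pos j with h0 | h0
              · subst h0
                simp
              · apply Nat.Coprime.pow_left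
                rw [hp.coprime_iff_not_dvd]
                intro h1
                apply hpe
                have h2 : p ^ 2 ∣ e + y ^ 2 := by
                  rw [heq]
                  exact (pow_dvd_pow p (by omega)).trans (dvd_mul_right _ _)
                have h3 : p ∣ y ^ 2 := by
                  have h4 : p ∣ e + y ^ 2 := (dvd_pow_self p (by norm_num)).trans h2
                  exact (Nat.dvd_add_right h1).1 h4
                have h5 : p ^ 2 ∣ y ^ 2 := pow_dvd_pow_of_dvd (hp.dvd_of_dvd_pow h3) 2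
                exact (Nat.dvd_add_left h5).1 h2
            · exact (hs.coprime_iff_not_dvd).2 hse
  have c1 : F1.card ≤ S0 * (L * L) := by
    refine card_image_le.trans ?_
    rw [card_product, card_product, card_range, card_range]
  have c2 : F2.card ≤ L * 2 := by
    refine card_biUnion_le.trans ?_
    refine (sum_le_card_nsmul _ _ 2 ?_).trans ?_
    · intro A hA
      rw [mem_filter] at hA
      have := one_card p A e hp hp2 hpe (by omega) hA.2
      convert this
    · rw [smul_eq_mul]
      refine Nat.mul_le_mul_right 2 ?_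
      refine (card_filter_le _ _).trans ?_
      rw [card_range]
  have c3 : F3.card ≤ e.divisors.card * L := by
    refine card_image_le.trans ?_
    rw [card_product, card_range]
  have c4 : F4.card ≤ (e / 2).divisors.card := by
    have := two_card p e hp hp2 hpe he4
    convert this
  calc (YY p e).card ≤ (F1 ∪ F2 ∪ F3 ∪ F4).card := card_le_card hsub
    _ ≤ F1.card + F2.card + F3.card + F4.card := by
        have d1 := card_union_le (F1 ∪ F2 ∪ F3) F4
        have d2 := card_union_le (F1 ∪ F2) F3
        have d3 := card_union_le F1 F2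
        omega
    _ ≤ _ := by omega

end Pool.Agent.MOD
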