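import Pool.Agent.MOD.Upr
import Pool.Agent.MOD.Yon
import Pool.Agent.MOD.Low

/-!
# The upper bound for the number of reduced forms is smaller than the lower bound
-/

set_option autoImplicit false

namespace Pool.Agent.MOD

open Finset Filter Pool.Agent.GLI

private theorem up2_alg (c E3 E1 l L S0 D d1 d2 : ℝ) (hc : 0 < c) (hE3 : 1 ≤ E3)
    (hE1 : 1 ≤ E1) (h13 : E1 ≤ E3) (hl : 1 ≤ l) (hL0 : 0 ≤ L) (hL : L ≤ 5 * l)
    (hS0 : 0 ≤ S0) (hS : S0 ≤ 3 * E3) (hD0 : 0 ≤ D) (hD : D ≤ 2 * c * E1)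
    (hd1 : d1 ≤ c * E1) (hd2 : d2 ≤ c * E1) :
    L * 30 + (S0 * (L * L) + L * 2 + d1 * L + d2) * (D * 12) ≤
      (150 + (85 + 6 * c) * (24 * c)) * (E3 * E1 * l ^ 2) := by
  have hl0 : 0 < l := by linarith
  have hE30 : 0 < E3 := by linarith
  have hE10 : 0 < E1 := by linarith
  have hl2 : l ≤ l ^ 2 := by nlinarith
  have hl21 : 1 ≤ l ^ 2 := by nlinarith
  have hLL : L * L ≤ 25 * l ^ 2 := by nlinarith
  have h1 : S0 * (L * L) ≤ 75 * (E3 * l ^ 2) := by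
    calc S0 * (L * L) ≤ (3 * E3) * (25 * l ^ 2) := by
          refine mul_le_mul hS hLL (by positivity) (by positivity)
      _ = 75 * (E3 * l ^ 2) := by ring
  have hA : l ^ 2 ≤ E3 * l ^ 2 := le_mul_of_one_le_left (by positivity) hE3
  have h2 : L * 2 ≤ 10 * (E3 * l ^ 2) := by linarith
  have h3 : d1 * L ≤ 5 * c * (E3 * l ^ 2) := by
    calc d1 * L ≤ (c * E1) * L := mul_le_mul_of_nonneg_right hd1 hL0
      _ ≤ (c * E3) * (5 * l) := by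
          refine mul_le_mul (mul_le_mul_of_nonneg_left h13 hc.le) hL hL0 (by positivity)
      _ ≤ (c * E3) * (5 * l ^ 2) := by
          refine mul_le_mul_of_nonneg_left (by linarith) (by positivity)
      _ = 5 * c * (E3 * l ^ 2) := by ring
  have h4 : d2 ≤ c * (E3 * l ^ 2) := by
    calc d2 ≤ c * E1 := hd2
      _ ≤ c * E3 := mul_le_mul_of_nonneg_left h13 hc.le
      _ ≤ c * (E3 * l ^ 2) := by
          refine mul_le_mul_of_nonneg_left ?_ hc.le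
          exact le_mul_of_one_le_right hE30.le hl21
  have h5 : S0 * (L * L) + L * 2 + d1 * L + d2 ≤ (85 + 6 * c) * (E3 * l ^ 2) := by
    calc S0 * (L * L) + L * 2 + d1 * L + d2 ≤ 75 * (E3 * l ^ 2) + 10 * (E3 * l ^ 2) +
          5 * c * (E3 * l ^ 2) + c * (E3 * l ^ 2) := by linarith
      _ = (85 + 6 * c) * (E3 * l ^ 2) := by ring
  have h6 : D * 12 ≤ 24 * c * E1 := by linarith
  have h7 : (S0 * (L * L) + L * 2 + d1 * L + d2) * (D * 12) ≤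
      ((85 + 6 * c) * (E3 * l ^ 2)) * (24 * c * E1) := by
    calc (S0 * (L * L) + L * 2 + d1 * L + d2) * (D * 12) ≤
          ((85 + 6 * c) * (E3 * l ^ 2)) * (D * 12) :=
          mul_le_mul_of_nonneg_right h5 (by positivity)
      _ ≤ ((85 + 6 * c) * (E3 * l ^ 2)) * (24 * c * E1) :=
          mul_le_mul_of_nonneg_left h6 (by positivity)
  have h8 : L * 30 ≤ 150 * (E3 * E1 * l ^ 2) := by
    have h9 : l ^ 2 ≤ E3 * E1 * l ^ 2 :=
      le_mul_of_one_le_left (by positivity) (one_le_mul_of_one_le_of_one_le hE3 hE1)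
    linarith
  calc L * 30 + (S0 * (L * L) + L * 2 + d1 * L + d2) * (D * 12) ≤
        150 * (E3 * E1 * l ^ 2) + ((85 + 6 * c) * (E3 * l ^ 2)) * (24 * c * E1) :=
        add_le_add h8 h7
    _ = (150 + (85 + 6 * c) * (24 * c)) * (E3 * E1 * l ^ 2) := by ring

private theorem up2_log (e : ℕ) (he : 1 ≤ e) (hl : 1 ≤ Real.log e) :
    ((Nat.log 2 (2 * e) + 1 : ℕ) : ℝ) ≤ 5 * Real.log e := by
  have he0 : (0 : ℝ) < e := by exact_mod_cast he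
  have h1 : (Nat.log 2 (2 * e) : ℝ) * Real.log 2 ≤ Real.log (2 * e) := by
    have h2 : 2 ^ Nat.log 2 (2 * e) ≤ 2 * e := Nat.pow_log_le_self 2 (by omega)
    have h3 : ((2 : ℝ) ^ Nat.log 2 (2 * e)) ≤ 2 * e := by exact_mod_cast h2
    have h4 := Real.log_le_log (by positivity) h3
    rwa [Real.log_pow] at h4
  have h5 : Real.log (2 * e) = Real.log 2 + Real.log e :=
    Real.log_mul (by norm_num) he0.ne'
  have h6 : (1 / 2 : ℝ) ≤ Real.log 2 := by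
    have := Real.log_two_gt_d9
    linarith
  have h7 : Real.log 2 ≤ 1 := by
    have := Real.log_two_lt_d9
    linarith
  have h8 : (Nat.log 2 (2 * e) : ℝ) * (1 / 2) ≤ (Nat.log 2 (2 * e) : ℝ) * Real.log 2 :=
    mul_le_mul_of_nonneg_left h6 (by positivity)
  push_cast
  linarith

theorem up2 : ∃ E0 : ℕ, ∀ e : ℕ, E0 ≤ e → e % 4 = 2 → ∀ p : ℕ, p.Prime → p ≠ 2 →
    ¬ p ^ 2 ∣ e → ¬ Hyp p e := by
  obtain ⟨c, hc, hdb⟩ := Pool.Agent.FTA.divisor_bound (ε := 1 / 100) (by norm_num)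
  have hev := (low.and ((ev_pow (1 / 3 + 1 / 100) (2 / 5) (by norm_num) 2
    (150 + (85 + 6 * c) * (24 * c) + 1)).and ((ev_log 1).and (eventually_ge_atTop 1))))
  obtain ⟨E0, hE0⟩ := eventually_atTop.1 hev
  refine ⟨E0, fun e hee he4 p hp hp2 hpe hyp => ?_⟩
  obtain ⟨hlow, hpow, hl, he1⟩ := hE0 e hee
  have he0 : (0 : ℝ) < e := by exact_mod_cast he1
  have he1' : (1 : ℝ) ≤ e := by exact_mod_cast he1
  have h2e : (2 * (e : ℝ)) ^ (1 / 100 : ℝ) ≤ 2 * (e : ℝ) ^ (1 / 100 : ℝ) := by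
    rw [Real.mul_rpow (by norm_num) he0.le]
    refine mul_le_mul_of_nonneg_right ?_ (by positivity)
    calc (2 : ℝ) ^ (1 / 100 : ℝ) ≤ (2 : ℝ) ^ (1 : ℝ) :=
          Real.rpow_le_rpow_of_exponent_le (by norm_num) (by norm_num)
      _ = 2 := Real.rpow_one 2
  have h2e3 : (2 * (e : ℝ)) ^ (1 / 3 : ℝ) ≤ 2 * (e : ℝ) ^ (1 / 3 : ℝ) := by
    rw [Real.mul_rpow (by norm_num) he0.le]
    refine mul_le_mul_of_nonneg_right ?_ (by positivity)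
    calc (2 : ℝ) ^ (1 / 3 : ℝ) ≤ (2 : ℝ) ^ (1 : ℝ) :=
          Real.rpow_le_rpow_of_exponent_le (by norm_num) (by norm_num)
      _ = 2 := Real.rpow_one 2
  have hE1 : 1 ≤ (e : ℝ) ^ (1 / 100 : ℝ) := Real.one_le_rpow he1' (by norm_num)
  have hE3 : 1 ≤ (e : ℝ) ^ (1 / 3 : ℝ) := Real.one_le_rpow he1' (by norm_num)
  have h13 : (e : ℝ) ^ (1 / 100 : ℝ) ≤ (e : ℝ) ^ (1 / 3 : ℝ) :=
    Real.rpow_le_rpow_of_exponent_le he1' (by norm_num)
  obtain ⟨D, hDdef⟩ : ∃ D : ℕ, D = ⌊c * (2 * (e : ℝ)) ^ (1 / 100 : ℝ)⌋₊ := ⟨_, rfl⟩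
  obtain ⟨S0, hSdef⟩ : ∃ S0 : ℕ, S0 = ⌊(2 * (e : ℝ)) ^ (1 / 3 : ℝ)⌋₊ + 1 := ⟨_, rfl⟩
  have hD : ∀ y : ℕ, y ^ 2 ≤ e → (e + y ^ 2).divisors.card ≤ D := by
    intro y hy
    rw [hDdef]
    refine Nat.le_floor ?_
    refine (hdb (e + y ^ 2) (by omega)).trans ?_
    refine mul_le_mul_of_nonneg_left ?_ hc.le
    refine Real.rpow_le_rpow (by positivity) ?_ (by norm_num)
    have : e + y ^ 2 ≤ 2 * e := by omega
    exact_mod_cast this
  have hS : ∀ s : ℕ, s ^ 3 ≤ 2 * e → s < S0 := by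
    intro s hs
    rw [hSdef, Nat.lt_succ_iff]
    refine Nat.le_floor ?_
    have h1 : ((s : ℝ) ^ 3) ≤ 2 * e := by exact_mod_cast hs
    calc (s : ℝ) = ((s : ℝ) ^ 3) ^ (1 / 3 : ℝ) := by
          rw [← Real.rpow_natCast, ← Real.rpow_mul (by positivity)]
          norm_num
      _ ≤ (2 * (e : ℝ)) ^ (1 / 3 : ℝ) := Real.rpow_le_rpow (by positivity) h1 (by norm_num)
  have h1 := upr p e D hp hp2 hpe he4 hyp hD
  have h2 := yon p e S0 hp hp2 hpe he4 hS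
  have h1r : ((RF e).card : ℝ) ≤ ((Nat.log 2 (2 * e) + 1 : ℕ) : ℝ) * 30 +
      ((YY p e).card : ℝ) * ((D : ℝ) * 12) := by exact_mod_cast h1
  have h2r : ((YY p e).card : ℝ) ≤ (S0 : ℝ) * (((Nat.log 2 (2 * e) + 1 : ℕ) : ℝ) *
      ((Nat.log 2 (2 * e) + 1 : ℕ) : ℝ)) + ((Nat.log 2 (2 * e) + 1 : ℕ) : ℝ) * 2 +
      (e.divisors.card : ℝ) * ((Nat.log 2 (2 * e) + 1 : ℕ) : ℝ) +
      ((e / 2).divisors.card : ℝ) := by exact_mod_cast h2
  have hDr : (D : ℝ) ≤ 2 * c * (e : ℝ) ^ (1 / 100 : ℝ) := by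
    rw [hDdef]
    refine (Nat.floor_le (by positivity)).trans ?_
    calc c * (2 * (e : ℝ)) ^ (1 / 100 : ℝ) ≤ c * (2 * (e : ℝ) ^ (1 / 100 : ℝ)) :=
          mul_le_mul_of_nonneg_left h2e hc.le
      _ = 2 * c * (e : ℝ) ^ (1 / 100 : ℝ) := by ring
  have hSr : (S0 : ℝ) ≤ 3 * (e : ℝ) ^ (1 / 3 : ℝ) := by
    rw [hSdef]
    push_cast
    have := Nat.floor_le (a := (2 * (e : ℝ)) ^ (1 / 3 : ℝ)) (by positivity)
    linarith
  have hd1 : (e.divisors.card : ℝ) ≤ c * (e : ℝ) ^ (1 / 100 : ℝ) := hdb e (by omega)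
  have hd2 : ((e / 2).divisors.card : ℝ) ≤ c * (e : ℝ) ^ (1 / 100 : ℝ) := by
    refine (hdb (e / 2) (by omega)).trans ?_
    refine mul_le_mul_of_nonneg_left ?_ hc.le
    refine Real.rpow_le_rpow (by positivity) ?_ (by norm_num)
    exact_mod_cast Nat.div_le_self e 2
  have hlog := up2_log e he1 hl
  have halg := up2_alg c ((e : ℝ) ^ (1 / 3 : ℝ)) ((e : ℝ) ^ (1 / 100 : ℝ)) (Real.log e)
    ((Nat.log 2 (2 * e) + 1 : ℕ) : ℝ) S0 D e.divisors.card (e / 2).divisors.card hc hE3 hE1 h13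
    hl (by positivity) hlog (by positivity) hSr (by positivity) hDr hd1 hd2
  have h3 : ((RF e).card : ℝ) ≤ (150 + (85 + 6 * c) * (24 * c)) *
      ((e : ℝ) ^ (1 / 3 : ℝ) * (e : ℝ) ^ (1 / 100 : ℝ) * Real.log e ^ 2) := by
    refine h1r.trans (le_trans ?_ halg)
    have := mul_le_mul_of_nonneg_right h2r (by positivity : (0 : ℝ) ≤ (D : ℝ) * 12)
    linarith
  have h4 : (e : ℝ) ^ (1 / 3 : ℝ) * (e : ℝ) ^ (1 / 100 : ℝ) =
      (e : ℝ) ^ (1 / 3 + 1 / 100 : ℝ) := (Real.rpow_add he0 _ _).symm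
  rw [h4] at h3
  have h5 : 0 < (e : ℝ) ^ (1 / 3 + 1 / 100 : ℝ) * Real.log e ^ 2 := by
    have : 0 < (e : ℝ) ^ (1 / 3 + 1 / 100 : ℝ) := Real.rpow_pos_of_pos he0 _
    positivity
  have h6 : (150 + (85 + 6 * c) * (24 * c) + 1) * (e : ℝ) ^ (1 / 3 + 1 / 100 : ℝ) *
      Real.log e ^ 2 = (150 + (85 + 6 * c) * (24 * c)) *
        ((e : ℝ) ^ (1 / 3 + 1 / 100 : ℝ) * Real.log e ^ 2) +
        (e : ℝ) ^ (1 / 3 + 1 / 100 : ℝ) * Real.log e ^ 2 := by ring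
  rw [h6] at hpow
  linarith

end Pool.Agent.MOD
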