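import Pool.Agent.MOD.Yon
import Pool.Agent.MOD.Red

/-!
# The upper bound for the number of reduced forms
-/

set_option autoImplicit false

namespace Pool.Agent.MOD

open Finset

/-- for odd `y ≤ √e` the number `e + y²` has at most one prime factor different from `p` -/
def Hyp (p e : ℕ) : Prop := ∀ y : ℕ, Odd y → y ^ 2 ≤ e →
  ∃ A s B : ℕ, s.Prime ∧ s ≠ p ∧ e + y ^ 2 = p ^ A * s ^ B

/-- The odd number `y` of a reduced form. -/
private theorem upr_y (e : ℕ) (he4 : e % 4 = 2) (a : ℕ) (k : ℤ) (h : Redf e (a, k)) :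
    ∃ y a' : ℕ, Odd y ∧ y ^ 2 ≤ e ∧ (a = a' ∨ a = 2 * a') ∧ a' ∣ e + y ^ 2 ∧
      (k = y ∨ k = -y ∨ k = a' - y ∨ k = y - a' ∨ k = 2 * a' - y ∨ k = y - 2 * a') := by
  have h3s := redf_sq h
  obtain ⟨h1, h2, h3, h4⟩ := h
  simp only at h1 h2 h3 h4 h3s
  obtain ⟨κ, hκ⟩ : ∃ κ : ℕ, |k| = κ := ⟨k.natAbs, (Int.natCast_natAbs k).symm⟩
  have hk2 : k ^ 2 = (κ : ℤ) ^ 2 := by rw [← hκ, sq_abs]
  have hkk : k = κ ∨ k = -κ := by
    rcases abs_eq (show (0 : ℤ) ≤ κ by positivity) |>.1 hκ with h | h
    · exact Or.inl h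
    · exact Or.inr h
  rw [hκ] at h3
  rw [hk2] at h2 h4
  have h2' : a ∣ e + κ ^ 2 := by exact_mod_cast h2
  have h3' : 2 * κ ≤ a := by exact_mod_cast h3
  have h4' : a ^ 2 ≤ e + κ ^ 2 := by exact_mod_cast h4
  have h3s' : 3 * a ^ 2 ≤ 4 * e := by exact_mod_cast h3s
  rcases Nat.even_or_odd κ with hke | hko
  · rcases Nat.even_or_odd a with hae | hao
    · -- both even
      obtain ⟨a', ha'⟩ := hae
      obtain ⟨m, hm⟩ := hke
      have ha2 : a = 2 * a' := by omega
      have hao' : Odd a' := by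
        rw [← Nat.not_even_iff_odd]
        rintro ⟨b, hb⟩
        obtain ⟨c, hc⟩ := h2'
        have h5 : e + κ ^ 2 = 4 * (b * c) := by
          rw [hc, ha2, hb]
          ring
        have h6 : κ ^ 2 = 4 * (m * m) := by
          rw [hm]
          ring
        omega
      have hle : κ ≤ a' := by omega
      refine ⟨a' - κ, a', ?_, ?_, Or.inr ha2, ?_, ?_⟩
      · obtain ⟨b, hb⟩ := hao'
        exact ⟨b - m, by omega⟩
      · have h5 : (a' - κ) ^ 2 ≤ a' ^ 2 := Nat.pow_le_pow_left (by omega) 2
        rw [ha2] at h3s'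
        nlinarith
      · have h5 : ((a' : ℕ) : ℤ) ∣ (e : ℤ) + ((a' : ℤ) - κ) ^ 2 := by
          have h6 : (e : ℤ) + ((a' : ℤ) - κ) ^ 2 = ((e : ℤ) + (κ : ℤ) ^ 2) + a' * (a' - 2 * κ) := by
            ring
          rw [h6]
          refine dvd_add ?_ (dvd_mul_right _ _)
          refine dvd_trans ?_ h2
          rw [ha2]
          push_cast
          exact Dvd.intro_left 2 rfl
        have h6 : (((a' - κ : ℕ)) : ℤ) = (a' : ℤ) - κ := by
          push_cast [Nat.cast_sub hle]
          ring
        rw [← h6] at h5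
        exact_mod_cast h5
      · have h6 : (((a' - κ : ℕ)) : ℤ) = (a' : ℤ) - κ := by
          push_cast [Nat.cast_sub hle]
          ring
        rw [h6]
        rcases hkk with h | h
        · right; right; left
          rw [h]
          ring
        · right; right; right; left
          rw [h]
          ring
    · -- `κ` even, `a` odd
      obtain ⟨m, hm⟩ := hke
      have hle : κ ≤ a := by omega
      refine ⟨a - κ, a, ?_, ?_, Or.inl rfl, ?_, ?_⟩
      · obtain ⟨b, hb⟩ := hao
        exact ⟨b - m, by omega⟩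
      · have h5 : (((a - κ : ℕ)) : ℤ) = (a : ℤ) - κ := by
          push_cast [Nat.cast_sub hle]
          ring
        have h6 : ((((a - κ : ℕ)) : ℤ)) ^ 2 ≤ e := by
          rw [h5]
          have h7 : (0 : ℤ) ≤ κ * (a - κ) := by
            apply mul_nonneg (by positivity)
            have : (κ : ℤ) ≤ a := by exact_mod_cast hle
            linarith
          nlinarith
        exact_mod_cast h6
      · have h5 : ((a : ℕ) : ℤ) ∣ (e : ℤ) + ((a : ℤ) - κ) ^ 2 := by
          have h6 : (e : ℤ) + ((a : ℤ) - κ) ^ 2 = ((e : ℤ) + (κ : ℤ) ^ 2) + a * (a - 2 * κ) := by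
            ring
          rw [h6]
          exact dvd_add h2 (dvd_mul_right _ _)
        have h6 : (((a - κ : ℕ)) : ℤ) = (a : ℤ) - κ := by
          push_cast [Nat.cast_sub hle]
          ring
        rw [← h6] at h5
        exact_mod_cast h5
      · have h6 : (((a - κ : ℕ)) : ℤ) = (a : ℤ) - κ := by
          push_cast [Nat.cast_sub hle]
          ring
        rw [h6]
        rcases hkk with h | h
        · right; right; left
          rw [h]
          ring
        · right; right; right; left
          rw [h]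
          ring
  · -- `κ` odd
    refine ⟨κ, a, hko, ?_, Or.inl rfl, h2', ?_⟩
    · nlinarith
    · rcases hkk with h | h
      · left
        exact h
      · right; left
        exact h

private theorem upr_P (p e : ℕ) (hp : p.Prime) (hp2 : p ≠ 2) (hpe : ¬ p ^ 2 ∣ e) (α : ℕ) :
    ((RF e).filter (fun q => q.1 = p ^ α ∨ q.1 = 2 * p ^ α)).card ≤ 30 := by
  classical
  rcases Finset.eq_empty_or_nonempty
    ((RF e).filter (fun q => q.1 = p ^ α ∨ q.1 = 2 * p ^ α)) with h0 | ⟨q0, hq0⟩
  · rw [h0]
    simp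
  have hpi : Prime (p : ℤ) := Nat.prime_iff_prime_int.1 hp
  have hP0 : (0 : ℤ) < (p : ℤ) ^ α := by
    have : 0 < p ^ α := pow_pos hp.pos α
    exact_mod_cast this
  have facts : ∀ q ∈ (RF e).filter (fun q => q.1 = p ^ α ∨ q.1 = 2 * p ^ α),
      (p : ℤ) ^ α ∣ (e : ℤ) + q.2 ^ 2 ∧ |q.2| ≤ (p : ℤ) ^ α := by
    intro q hq
    rw [mem_filter] at hq
    obtain ⟨h1, h2, h3, h4⟩ := mem_RF.1 hq.1
    rcases hq.2 with h5 | h5
    · have h6 : (q.1 : ℤ) = (p : ℤ) ^ α := by
        rw [h5]
        push_cast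
        rfl
      rw [h6] at h2 h3
      exact ⟨h2, by linarith [abs_nonneg q.2]⟩
    · have h6 : (q.1 : ℤ) = 2 * (p : ℤ) ^ α := by
        rw [h5]
        push_cast
        rfl
      rw [h6] at h2 h3
      exact ⟨dvd_trans (Dvd.intro_left 2 rfl) h2, by linarith⟩
  set K : Finset ℤ := (Icc (-2 : ℤ) 2).biUnion (fun t =>
    ({q0.2 + t * (p : ℤ) ^ α, -q0.2 + t * (p : ℤ) ^ α, t * (p : ℤ) ^ α} : Finset ℤ)) with hK
  have hKc : K.card ≤ 15 := by
    rw [hK]
    refine card_biUnion_le.trans ?_
    refine (sum_le_card_nsmul _ _ 3 fun t _ => Finset.card_le_three).trans ?_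
    simp
  have hsub : (RF e).filter (fun q => q.1 = p ^ α ∨ q.1 = 2 * p ^ α) ⊆
      ({p ^ α, 2 * p ^ α} : Finset ℕ) ×ˢ K := by
    intro q hq
    have hq' := facts q hq
    have hq0' := facts q0 hq0
    rw [mem_product]
    refine ⟨?_, ?_⟩
    · rw [mem_filter] at hq
      rw [mem_insert, mem_singleton]
      exact hq.2
    · rw [hK, mem_biUnion]
      have hb := abs_le.1 hq'.2
      have hb0 := abs_le.1 hq0'.2
      have ht : ∀ t x : ℤ, t * (p : ℤ) ^ α = x → |x| ≤ 2 * (p : ℤ) ^ α → t ∈ Icc (-2 : ℤ) 2 := by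
        intro t x h1 h2
        rw [← h1, abs_mul, abs_of_pos hP0] at h2
        have h3 := le_of_mul_le_mul_right h2 hP0
        rw [mem_Icc]
        exact abs_le.1 h3
      rcases Nat.eq_zero_or_pos α with hα | hα
      · refine ⟨q.2, ht q.2 q.2 ?_ ?_, ?_⟩
        · rw [hα]
          ring
        · linarith [hq'.2]
        · rw [mem_insert, mem_insert, mem_singleton]
          right; right
          rw [hα]
          ring
      · by_cases hpk : (p : ℤ) ∣ q0.2
        · have hpa : (p : ℤ) ∣ (p : ℤ) ^ α := dvd_pow_self _ (by omega)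
          have hpe1 : (p : ℤ) ∣ (e : ℤ) := by
            have h1 := hpa.trans hq0'.1
            exact (dvd_add_left (dvd_pow hpk (by norm_num))).1 h1
          have hα1 : α = 1 := by
            by_contra h1
            apply hpe
            have h2 : (p : ℤ) ^ 2 ∣ (e : ℤ) + q0.2 ^ 2 := (pow_dvd_pow _ (by omega)).trans hq0'.1
            have h3 : (p : ℤ) ^ 2 ∣ (e : ℤ) :=
              (dvd_add_left (pow_dvd_pow_of_dvd hpk 2)).1 h2
            exact_mod_cast h3
          have hpq : (p : ℤ) ∣ q.2 := by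
            have h1 := hpa.trans hq'.1
            exact hpi.dvd_of_dvd_pow ((dvd_add_right hpe1).1 h1)
          obtain ⟨t, hte⟩ := hpq
          have hte' : t * (p : ℤ) ^ α = q.2 := by
            rw [hα1, hte]
            ring
          refine ⟨t, ht t q.2 hte' (by linarith [hq'.2]), ?_⟩
          rw [mem_insert, mem_insert, mem_singleton]
          right; right
          exact hte'.symm
        · have hprod : (p : ℤ) ^ α ∣ (q.2 - q0.2) * (q.2 + q0.2) := by
            have h1 : (q.2 - q0.2) * (q.2 + q0.2) =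
                ((e : ℤ) + q.2 ^ 2) - ((e : ℤ) + q0.2 ^ 2) := by ring
            rw [h1]
            exact dvd_sub hq'.1 hq0'.1
          have hn : ¬ ((p : ℤ) ∣ q.2 - q0.2 ∧ (p : ℤ) ∣ q.2 + q0.2) := by
            rintro ⟨h3, h4⟩
            have h5 : (p : ℤ) ∣ 2 * q0.2 := by
              have := dvd_sub h4 h3
              rwa [show (q.2 + q0.2) - (q.2 - q0.2) = 2 * q0.2 by ring] at this
            rcases hpi.dvd_or_dvd h5 with h6 | h6
            · have h7 : p ∣ 2 := by exact_mod_cast h6
              exact hp2 ((Nat.prime_dvd_prime_iff_eq hp Nat.prime_two).1 h7)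
            · exact hpk h6
          rcases pp_dvd hpi α hprod hn with ⟨t, h3⟩ | ⟨t, h3⟩
          · refine ⟨t, ht t (q.2 - q0.2) (by rw [h3]; ring) ?_, ?_⟩
            · rw [abs_le]
              constructor <;> linarith
            · rw [mem_insert]
              left
              linear_combination h3
          · refine ⟨t, ht t (q.2 + q0.2) (by rw [h3]; ring) ?_, ?_⟩
            · rw [abs_le]
              constructor <;> linarith
            · rw [mem_insert, mem_insert]
              right; left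
              linear_combination h3
  calc ((RF e).filter (fun q => q.1 = p ^ α ∨ q.1 = 2 * p ^ α)).card
      ≤ (({p ^ α, 2 * p ^ α} : Finset ℕ) ×ˢ K).card := card_le_card hsub
    _ = ({p ^ α, 2 * p ^ α} : Finset ℕ).card * K.card := card_product _ _
    _ ≤ 2 * 15 := Nat.mul_le_mul Finset.card_le_two hKc
    _ = 30 := by norm_num

theorem upr (p e D : ℕ) (hp : p.Prime) (hp2 : p ≠ 2) (hpe : ¬ p ^ 2 ∣ e) (he4 : e % 4 = 2)
    (hyp : Hyp p e) (hD : ∀ y : ℕ, y ^ 2 ≤ e → (e + y ^ 2).divisors.card ≤ D) :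
    (RF e).card ≤ (Nat.log 2 (2 * e) + 1) * 30 + (YY p e).card * (D * 12) := by
  classical
  set L := Nat.log 2 (2 * e) + 1 with hL
  set W : ℕ → ℕ → Finset (ℕ × ℤ) := fun y a' => ({a', 2 * a'} : Finset ℕ) ×ˢ
    ({(y : ℤ), -(y : ℤ), (a' : ℤ) - y, (y : ℤ) - a', 2 * (a' : ℤ) - y, (y : ℤ) - 2 * a'} :
      Finset ℤ) with hW
  have hsub : RF e ⊆ ((range L).biUnion
      (fun α => (RF e).filter (fun q => q.1 = p ^ α ∨ q.1 = 2 * p ^ α))) ∪
      ((YY p e).biUnion (fun y => (e + y ^ 2).divisors.biUnion (fun a' => W y a'))) := by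
    intro q hq
    have hqr := mem_RF.1 hq
    obtain ⟨a, k⟩ := q
    obtain ⟨y, a', hyo, hye, haa, hay, hk⟩ := upr_y e he4 a k hqr
    have ha0 : 0 < a := hqr.1
    have ha'0 : a' ≠ 0 := by
      rintro rfl
      rcases haa with h | h <;> omega
    by_cases hnp : ∃ t : ℕ, t.Prime ∧ t ∣ a' ∧ t ≠ p
    · refine mem_union_right _ ?_
      obtain ⟨t, ht, hta, htp⟩ := hnp
      obtain ⟨A, s, B, hs, hsp, heq⟩ := hyp y hyo hye
      have hts : t = s ∧ 1 ≤ B := by
        have h1 : t ∣ p ^ A * s ^ B := by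
          rw [← heq]
          exact hta.trans hay
        rcases (ht.dvd_mul).1 h1 with h2 | h2
        · exact absurd ((Nat.prime_dvd_prime_iff_eq ht hp).1 (ht.dvd_of_dvd_pow h2)) htp
        · refine ⟨(Nat.prime_dvd_prime_iff_eq ht hs).1 (ht.dvd_of_dvd_pow h2), ?_⟩
          by_contra h3
          have : B = 0 := by omega
          subst this
          rw [pow_zero] at h2
          exact ht.one_lt.ne' (Nat.dvd_one.1 h2)
      obtain ⟨rfl, hB⟩ := hts
      rw [mem_biUnion]
      refine ⟨y, ?_, ?_⟩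
      · unfold YY
        rw [mem_filter, mem_Icc, Nat.le_sqrt']
        refine ⟨⟨hyo.pos, hye⟩, hyo, A, t, B, hs, hsp, hB, ?_, heq⟩
        have h1 : 3 * a ^ 2 ≤ 4 * e := by exact_mod_cast redf_sq hqr
        have h2 : t ≤ a := by
          have h3 := Nat.le_of_dvd (Nat.pos_of_ne_zero ha'0) hta
          rcases haa with h | h <;> omega
        have h3 := Nat.pow_le_pow_left h2 2
        omega
      · rw [mem_biUnion]
        refine ⟨a', ?_, ?_⟩
        · rw [Nat.mem_divisors]
          exact ⟨hay, by omega⟩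
        · simp only [hW, mem_product, mem_insert, mem_singleton]
          refine ⟨haa, ?_⟩
          rcases hk with h | h | h | h | h | h <;> simp [h]
    · refine mem_union_left _ ?_
      push Not at hnp
      have h1 : a' = p ^ a'.primeFactorsList.length :=
        Nat.eq_prime_pow_of_unique_prime_dvd ha'0 (fun {d} hd hda => hnp d hd hda)
      rw [mem_biUnion]
      refine ⟨a'.primeFactorsList.length, ?_, ?_⟩
      · rw [mem_range]
        have h2 : 2 ^ a'.primeFactorsList.length ≤ 2 * e := by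
          have h3 : 2 ^ a'.primeFactorsList.length ≤ p ^ a'.primeFactorsList.length :=
            Nat.pow_le_pow_left hp.two_le _
          rw [← h1] at h3
          have h4 : 3 * a ^ 2 ≤ 4 * e := by exact_mod_cast redf_sq hqr
          have h5 : a ≤ 2 * e := by nlinarith
          rcases haa with h | h <;> omega
        have h3 := Nat.le_log_of_pow_le (by norm_num) h2
        omega
      · rw [mem_filter, ← h1]
        exact ⟨hq, haa⟩
  have c1 : ((range L).biUnion
      (fun α => (RF e).filter (fun q => q.1 = p ^ α ∨ q.1 = 2 * p ^ α))).card ≤ L * 30 := by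
    refine card_biUnion_le.trans ?_
    refine (sum_le_card_nsmul _ _ 30 fun α _ => upr_P p e hp hp2 hpe α).trans ?_
    rw [card_range, smul_eq_mul]
  have c2 : ((YY p e).biUnion (fun y => (e + y ^ 2).divisors.biUnion (fun a' => W y a'))).card ≤
      (YY p e).card * (D * 12) := by
    refine card_biUnion_le.trans ?_
    refine (sum_le_card_nsmul _ _ (D * 12) fun y hy => ?_).trans ?_
    · have hye : y ^ 2 ≤ e := by
        unfold YY at hy
        rw [mem_filter, mem_Icc, Nat.le_sqrt'] at hy
        exact hy.1.2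
      refine card_biUnion_le.trans ?_
      refine (sum_le_card_nsmul _ _ 12 fun a' _ => ?_).trans ?_
      · simp only [hW]
        rw [card_product]
        calc ({a', 2 * a'} : Finset ℕ).card * ({(y : ℤ), -(y : ℤ), (a' : ℤ) - y, (y : ℤ) - a',
              2 * (a' : ℤ) - y, (y : ℤ) - 2 * a'} : Finset ℤ).card ≤ 2 * 6 :=
              Nat.mul_le_mul Finset.card_le_two Finset.card_le_six
          _ = 12 := by norm_num
      · rw [smul_eq_mul]
        exact Nat.mul_le_mul_right 12 (hD y hye)
    · rw [smul_eq_mul]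
  calc (RF e).card ≤ _ := card_le_card hsub
    _ ≤ _ := card_union_le _ _
    _ ≤ _ := Nat.add_le_add c1 c2

end Pool.Agent.MOD
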